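import Mathlib

set_option autoImplicit false
set_option linter.unusedSectionVars false

open scoped Pointwise

noncomputable section

namespace H61R3AT

variable {G : Type*} [Group G] {κ : Type*}

lemma kemperman [DecidableEq G] (htf : ∀ g : G, IsOfFinOrder g → g = 1) (s t : Finset G)
    (hs : s.Nonempty) (ht : t.Nonempty) : s.card + t.card ≤ (s * t).card + 1 := by
  have hm : Monoid.minOrder G = ⊤ := by
    rw [eq_top_iff, Monoid.le_minOrder]
    intro a ha ha'
    exact absurd (htf a ha') ha
  have h := cauchy_davenport_minOrder_mul hs ht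
  rw [hm, min_eq_right le_top, Nat.cast_le] at h
  omega

/-- A sequence which is superadditive up to one, with total at most `n²`, has all its partial sums
at most squares. -/
lemma seq (n : ℕ) (l : ℕ → ℕ) (h : ∀ s s', s + s' < n → l s + l s' ≤ l (s + s') + 1)
    (htot : ∑ s ∈ Finset.range n, l s ≤ n ^ 2) (m : ℕ) (hm : m ≤ n) :
    ∑ s ∈ Finset.range m, l s ≤ m ^ 2 := by
  -- integer version
  set M : ℕ → ℤ := fun k => ∑ s ∈ Finset.range k, ((l s : ℤ) - 1) with hM
  have hMs : ∀ k, M (k + 1) = M k + ((l k : ℤ) - 1) := fun k => by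
    simp only [hM, Finset.sum_range_succ]
  have hkey : ∀ k, k < n → ((k : ℤ) - 1) * M (k + 1) ≥ ((k : ℤ) + 1) * M k := by
    intro k hk
    have h1 : ∀ a ∈ Finset.range (k + 1), ((l a : ℤ) - 1) + ((l (k - a) : ℤ) - 1) ≤ (l k : ℤ) - 1 := by
      intro a ha
      rw [Finset.mem_range] at ha
      have := h a (k - a) (by omega)
      rw [show a + (k - a) = k by omega] at this
      zify at this
      linarith
    have h2 := Finset.sum_le_sum h1
    rw [Finset.sum_add_distrib, Finset.sum_const, Finset.card_range, nsmul_eq_mul] at h2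
    have h3 : ∑ a ∈ Finset.range (k + 1), ((l (k - a) : ℤ) - 1) = M (k + 1) := by
      rw [hM]
      exact Finset.sum_range_reflect (fun s => (l s : ℤ) - 1) (k + 1)
    rw [h3] at h2
    have h4 : M (k + 1) + M (k + 1) ≤ ((k : ℤ) + 1) * ((l k : ℤ) - 1) := by
      have : (((k + 1 : ℕ)) : ℤ) = (k : ℤ) + 1 := by push_cast; ring
      rw [this] at h2
      exact h2
    have h5 : (l k : ℤ) - 1 = M (k + 1) - M k := by rw [hMs]; ring
    rw [h5] at h4
    nlinarith
  have hMm : ∀ j, j ≤ n → M (n - j) ≤ ((n - j : ℕ) : ℤ) * (((n - j : ℕ) : ℤ) - 1) := by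
    intro j
    induction j with
    | zero =>
      intro _
      rw [Nat.sub_zero]
      have h6 : M n = (∑ s ∈ Finset.range n, (l s : ℤ)) - n := by
        simp only [hM, Finset.sum_sub_distrib, Finset.sum_const, Finset.card_range, nsmul_eq_mul,
          mul_one]
      rw [h6]
      have h7 : (∑ s ∈ Finset.range n, (l s : ℤ)) ≤ (n : ℤ) ^ 2 := by exact_mod_cast htot
      nlinarith
    | succ j ih =>
      intro hj
      have ih' := ih (by omega)
      obtain ⟨k, hk⟩ : ∃ k, n - (j + 1) = k := ⟨_, rfl⟩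
      have hk2 : n - j = k + 1 := by omega
      rw [hk]
      rw [hk2] at ih'
      have h8 := hkey k (by omega)
      push_cast at ih'
      rcases Nat.eq_zero_or_pos k with h0 | h0
      · subst h0
        simp [hM]
      · have hk1 : (1 : ℤ) ≤ k := by exact_mod_cast h0
        have h9 : ((k : ℤ) + 1) * M k ≤ ((k : ℤ) + 1) * ((k : ℤ) * ((k : ℤ) - 1)) := by
          have h10 : ((k : ℤ) - 1) * M (k + 1) ≤ ((k : ℤ) - 1) * (((k : ℤ) + 1) * ((k : ℤ) + 1 - 1)) :=
            mul_le_mul_of_nonneg_left ih' (by linarith)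
          nlinarith
        exact le_of_mul_le_mul_left h9 (by linarith)
  have h11 := hMm (n - m) (by omega)
  rw [show n - (n - m) = m by omega] at h11
  have h12 : M m = (∑ s ∈ Finset.range m, (l s : ℤ)) - m := by
    simp only [hM, Finset.sum_sub_distrib, Finset.sum_const, Finset.card_range, nsmul_eq_mul,
      mul_one]
  rw [h12] at h11
  have h13 : (∑ s ∈ Finset.range m, (l s : ℤ)) ≤ (m : ℤ) ^ 2 := by nlinarith
  exact_mod_cast h13

open Classical in
/-- number of points of `S` moved into `S` by right multiplication with `y` -/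
def cnt (S : Finset (κ × G)) (y : G) : ℕ := (S.filter fun p => (p.1, p.2 * y) ∈ S).card

open Classical in
/-- the quotients -/
def Y (S : Finset (κ × G)) : Finset G := (S ×ˢ S).image fun p => p.1.2⁻¹ * p.2.2

variable (S : Finset (κ × G))

lemma cnt_le (y : G) : cnt S y ≤ S.card := by
  classical
  exact Finset.card_filter_le _ _

lemma cnt_one : cnt S 1 = S.card := by
  classical
  unfold cnt
  congr 1
  apply Finset.filter_true_of_mem
  intro p hp
  simpa using hp

lemma mem_Y (p q : κ × G) (hp : p ∈ S) (hq : q ∈ S) : p.2⁻¹ * q.2 ∈ Y S := by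
  classical
  unfold Y
  exact Finset.mem_image.2 ⟨(p, q), Finset.mem_product.2 ⟨hp, hq⟩, rfl⟩

lemma cnt_pos (y : G) (h : 0 < cnt S y) : y ∈ Y S := by
  classical
  unfold cnt at h
  rw [Finset.card_pos] at h
  obtain ⟨p, hp⟩ := h
  rw [Finset.mem_filter] at hp
  have := mem_Y S p (p.1, p.2 * y) hp.1 hp.2
  simpa using this

lemma cnt_mul (x y : G) : cnt S x + cnt S y ≤ cnt S (x * y) + S.card := by
  classical
  set A := S.filter fun p => (p.1, p.2 * x) ∈ S with hA
  set B := S.filter fun p => (p.1, p.2 * y) ∈ S with hB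
  set A1 := A.filter fun p => ((p.1, p.2 * x) : κ × G) ∈ B with hA1
  set A2 := A.filter fun p => ¬ ((p.1, p.2 * x) : κ × G) ∈ B with hA2
  have h1 : A1.card + A2.card = A.card := Finset.card_filter_add_card_filter_not _
  have h2 : A1.card ≤ cnt S (x * y) := by
    unfold cnt
    apply Finset.card_le_card
    intro p hp
    simp only [hA1, hA, hB, Finset.mem_filter] at hp ⊢
    refine ⟨hp.1.1, ?_⟩
    rw [← mul_assoc]
    exact hp.2.2
  have h3 : A2.card ≤ (S \ B).card := by
    apply Finset.card_le_card_of_injOn (fun p => ((p.1, p.2 * x) : κ × G))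
    · intro p hp
      simp only [hA2, hA, Finset.coe_filter, Set.mem_ofPred_eq, Finset.mem_filter] at hp
      simp only [Finset.coe_sdiff, Set.mem_sdiff, Finset.mem_coe]
      exact ⟨hp.1.2, hp.2⟩
    · intro p _ q _ hpq
      simp only [Prod.mk.injEq, mul_left_inj] at hpq
      exact Prod.ext hpq.1 hpq.2
  have h4 : (S \ B).card + B.card = S.card := by
    rw [Finset.card_sdiff_add_card_eq_card]
    exact Finset.filter_subset _ _
  have h5 : cnt S x = A.card := rfl
  have h6 : cnt S y = B.card := rfl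
  omega

open Classical in
/-- level sets -/
def Lv (s : ℕ) : Finset G := (Y S).filter fun y => S.card ≤ cnt S y + s

lemma mem_Lv (s : ℕ) (hs : s < S.card) (y : G) : y ∈ Lv S s ↔ S.card ≤ cnt S y + s := by
  classical
  unfold Lv
  rw [Finset.mem_filter]
  refine ⟨fun h => h.2, fun h => ⟨cnt_pos S y (by omega), h⟩⟩

lemma Lv_super (htf : ∀ g : G, IsOfFinOrder g → g = 1) (s s' : ℕ) (h : s + s' < S.card) :
    (Lv S s).card + (Lv S s').card ≤ (Lv S (s + s')).card + 1 := by
  classical
  have hs : s < S.card := by omega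
  have hs' : s' < S.card := by omega
  have h1 : (1 : G) ∈ Lv S s := by rw [mem_Lv S s hs, cnt_one]; omega
  have h1' : (1 : G) ∈ Lv S s' := by rw [mem_Lv S s' hs', cnt_one]; omega
  refine (kemperman htf _ _ ⟨1, h1⟩ ⟨1, h1'⟩).trans ?_
  apply Nat.add_le_add_right
  apply Finset.card_le_card
  intro z hz
  obtain ⟨x, hx, y, hy, rfl⟩ := Finset.mem_mul.1 hz
  rw [mem_Lv S s hs] at hx
  rw [mem_Lv S s' hs'] at hy
  rw [mem_Lv S _ h]
  have := cnt_mul S x y
  omega

lemma layer (t : ℕ) (ht : t ≤ S.card) :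
    ∑ y ∈ Y S, (cnt S y - t) = ∑ s ∈ Finset.range (S.card - t), (Lv S s).card := by
  classical
  unfold Lv
  simp only [Finset.card_filter]
  rw [Finset.sum_comm]
  apply Finset.sum_congr rfl
  intro y _
  rw [← Finset.card_filter]
  have h1 : (Finset.range (S.card - t)).filter (fun s => S.card ≤ cnt S y + s)
      = Finset.Ico (S.card - cnt S y) (S.card - t) := by
    ext s
    simp only [Finset.mem_filter, Finset.mem_range, Finset.mem_Ico]
    omega
  rw [h1, Nat.card_Ico]
  have := cnt_le S y
  omega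

lemma total : ∑ y ∈ Y S, cnt S y ≤ S.card ^ 2 := by
  classical
  unfold cnt
  rw [← Finset.card_sigma, pow_two, ← Finset.card_product]
  apply Finset.card_le_card_of_injOn (fun z => ((z.2, (z.2.1, z.2.2 * z.1)) : (κ × G) × (κ × G)))
  · intro z hz
    simp only [Finset.coe_sigma, Set.mem_sigma_iff, Finset.mem_coe, Finset.mem_filter] at hz
    simp only [Finset.coe_product, Set.mem_prod, Finset.mem_coe]
    exact hz.2
  · intro z _ w _ hzw
    simp only [Prod.mk.injEq] at hzw
    obtain ⟨h1, h2, h3⟩ := hzw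
    have h4 : z.1 = w.1 := by
      rw [h1] at h3
      exact mul_left_cancel h3
    exact Sigma.ext h4 (heq_of_eq h1)

/-- the majorisation bound -/
lemma upper (htf : ∀ g : G, IsOfFinOrder g → g = 1) (t : ℕ) (ht : t ≤ S.card) :
    ∑ y ∈ Y S, (cnt S y - t) ≤ (S.card - t) ^ 2 := by
  rw [layer S t ht]
  apply seq S.card (fun s => (Lv S s).card) (fun s s' h => Lv_super S htf s s' h) _ _ (by omega)
  have := layer S 0 (by omega)
  rw [Nat.sub_zero] at this
  rw [← this]
  simpa using total S

end H61R3AT
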