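import Pool.Agent.H61R3.AT1

set_option autoImplicit false
set_option linter.unusedSectionVars false

open scoped Pointwise

noncomputable section

namespace H61R3AT

variable {G : Type*} [Group G] {κ : Type*} [DecidableEq κ]

variable (S : Finset (κ × G))

/-- correlations -/
def zz (w : κ × G → ℝ) (y : G) : ℝ := ∑ p ∈ S, w p * w (p.1, p.2 * y)

/-- the energy form -/
def QQ (b : κ × G → ℝ) (u : G → ℝ) : ℝ :=
  ∑ p ∈ S, ∑ q ∈ S, if p.1 = q.1 then b p * b q * u (p.2⁻¹ * q.2) else 0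

lemma sq_shift (w : κ × G → ℝ) (h0 : ∀ p, p ∉ S → w p = 0) (y : G) :
    ∑ p ∈ S, w (p.1, p.2 * y) ^ 2 ≤ ∑ p ∈ S, w p ^ 2 := by
  classical
  have hinj : Set.InjOn (fun p : κ × G => ((p.1, p.2 * y) : κ × G)) S := by
    intro p _ q _ hpq
    simp only [Prod.mk.injEq, mul_left_inj] at hpq
    exact Prod.ext hpq.1 hpq.2
  have h1 : ∑ p ∈ S, w (p.1, p.2 * y) ^ 2
      = ∑ q ∈ S.image (fun p : κ × G => ((p.1, p.2 * y) : κ × G)), w q ^ 2 := by
    rw [Finset.sum_image hinj]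
  rw [h1]
  have h2 : ∑ q ∈ S.image (fun p : κ × G => ((p.1, p.2 * y) : κ × G)), w q ^ 2
      = ∑ q ∈ (S.image (fun p : κ × G => ((p.1, p.2 * y) : κ × G))).filter (· ∈ S), w q ^ 2 := by
    rw [Finset.sum_filter]
    apply Finset.sum_congr rfl
    intro q _
    by_cases hq : q ∈ S
    · simp [hq]
    · simp [hq, h0 q hq]
  rw [h2]
  apply Finset.sum_le_sum_of_subset_of_nonneg
  · intro q hq
    exact (Finset.mem_filter.1 hq).2
  · intro _ _ _
    positivity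

lemma zz_le (w : κ × G → ℝ) (h0 : ∀ p, p ∉ S → w p = 0) (y : G) :
    zz S w y ≤ ∑ p ∈ S, w p ^ 2 := by
  have h1 : zz S w y ≤ ∑ p ∈ S, (w p ^ 2 + w (p.1, p.2 * y) ^ 2) / 2 := by
    unfold zz
    apply Finset.sum_le_sum
    intro p _
    nlinarith [sq_nonneg (w p - w (p.1, p.2 * y))]
  rw [← Finset.sum_div, Finset.sum_add_distrib] at h1
  have := sq_shift S w h0 y
  linarith

open Classical in
lemma zz_ind (y : G) : zz S (fun p => if p ∈ S then 1 else 0) y = cnt S y := by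
  unfold zz cnt
  rw [Finset.card_filter]
  push_cast
  apply Finset.sum_congr rfl
  intro p hp
  simp [hp]

lemma QQ_mono (b : κ × G → ℝ) (hb : ∀ p, 0 ≤ b p) (u v : G → ℝ) (huv : ∀ y, u y ≤ v y) :
    QQ S b u ≤ QQ S b v := by
  unfold QQ
  apply Finset.sum_le_sum
  intro p _
  apply Finset.sum_le_sum
  intro q _
  split_ifs
  · exact mul_le_mul_of_nonneg_left (huv _) (mul_nonneg (hb _) (hb _))
  · exact le_rfl

lemma QQ_add (b : κ × G → ℝ) (u v : G → ℝ) :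
    QQ S b (fun y => u y + v y) = QQ S b u + QQ S b v := by
  unfold QQ
  rw [← Finset.sum_add_distrib]
  apply Finset.sum_congr rfl
  intro p _
  rw [← Finset.sum_add_distrib]
  apply Finset.sum_congr rfl
  intro q _
  split_ifs
  · ring
  · ring

lemma QQ_const (b : κ × G → ℝ) (hb : ∀ p, 0 ≤ b p) (c : ℝ) (hc : 0 ≤ c) :
    QQ S b (fun _ => c) ≤ c * (∑ p ∈ S, b p) ^ 2 := by
  unfold QQ
  rw [pow_two, Finset.sum_mul_sum, Finset.mul_sum]
  apply Finset.sum_le_sum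
  intro p _
  rw [Finset.mul_sum]
  apply Finset.sum_le_sum
  intro q _
  have := mul_nonneg (hb p) (hb q)
  split_ifs
  · linarith [mul_comm c (b p * b q)]
  · positivity

lemma row_le (u : G → ℝ) (hu : ∀ y, 0 ≤ u y) (p : κ × G) (hp : p ∈ S) :
    (∑ q ∈ S, if p.1 = q.1 then u (p.2⁻¹ * q.2) else 0) ≤ ∑ y ∈ Y S, u y := by
  classical
  rw [← Finset.sum_filter]
  have hinj : Set.InjOn (fun q : κ × G => p.2⁻¹ * q.2) (S.filter fun q => p.1 = q.1) := by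
    intro q hq q' hq' h
    simp only [Finset.coe_filter, Set.mem_ofPred_eq] at hq hq'
    simp only [mul_right_inj] at h
    exact Prod.ext (hq.2.symm.trans hq'.2) h
  rw [← Finset.sum_image (f := u) hinj]
  apply Finset.sum_le_sum_of_subset_of_nonneg
  · intro y hy
    obtain ⟨q, hq, rfl⟩ := Finset.mem_image.1 hy
    exact mem_Y S p q hp (Finset.mem_filter.1 hq).1
  · intro _ _ _
    exact hu _

lemma col_le (u : G → ℝ) (hu : ∀ y, 0 ≤ u y) (q : κ × G) (hq : q ∈ S) :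
    (∑ p ∈ S, if p.1 = q.1 then u (p.2⁻¹ * q.2) else 0) ≤ ∑ y ∈ Y S, u y := by
  classical
  rw [← Finset.sum_filter]
  have hinj : Set.InjOn (fun p : κ × G => p.2⁻¹ * q.2) (S.filter fun p => p.1 = q.1) := by
    intro p hp p' hp' h
    simp only [Finset.coe_filter, Set.mem_ofPred_eq] at hp hp'
    simp only [mul_left_inj, inv_inj] at h
    exact Prod.ext (hp.2.trans hp'.2.symm) h
  rw [← Finset.sum_image (f := u) hinj]
  apply Finset.sum_le_sum_of_subset_of_nonneg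
  · intro y hy
    obtain ⟨p, hp, rfl⟩ := Finset.mem_image.1 hy
    exact mem_Y S p q (Finset.mem_filter.1 hp).1 hq
  · intro _ _ _
    exact hu _

lemma QQ_upper (b : κ × G → ℝ) (hb : ∀ p, 0 ≤ b p) (u : G → ℝ) (hu : ∀ y, 0 ≤ u y) :
    QQ S b u ≤ (∑ p ∈ S, b p ^ 2) * ∑ y ∈ Y S, u y := by
  have h1 : QQ S b u ≤ ∑ p ∈ S, ∑ q ∈ S,
      ((if p.1 = q.1 then b p ^ 2 * u (p.2⁻¹ * q.2) else 0) / 2
        + (if p.1 = q.1 then b q ^ 2 * u (p.2⁻¹ * q.2) else 0) / 2) := by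
    unfold QQ
    apply Finset.sum_le_sum
    intro p _
    apply Finset.sum_le_sum
    intro q _
    split_ifs
    · have := mul_nonneg (hu (p.2⁻¹ * q.2)) (sq_nonneg (b p - b q))
      nlinarith
    · simp
  refine h1.trans ?_
  simp only [Finset.sum_add_distrib]
  have h2 : ∑ p ∈ S, ∑ q ∈ S, (if p.1 = q.1 then b p ^ 2 * u (p.2⁻¹ * q.2) else 0) / 2
      ≤ (∑ p ∈ S, b p ^ 2) * (∑ y ∈ Y S, u y) / 2 := by
    rw [Finset.sum_mul, Finset.sum_div]
    apply Finset.sum_le_sum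
    intro p hp
    rw [← Finset.sum_div]
    apply div_le_div_of_nonneg_right _ (by norm_num)
    have : ∑ q ∈ S, (if p.1 = q.1 then b p ^ 2 * u (p.2⁻¹ * q.2) else 0)
        = b p ^ 2 * ∑ q ∈ S, (if p.1 = q.1 then u (p.2⁻¹ * q.2) else 0) := by
      rw [Finset.mul_sum]
      apply Finset.sum_congr rfl
      intro q _
      split_ifs <;> simp
    rw [this]
    exact mul_le_mul_of_nonneg_left (row_le S u hu p hp) (sq_nonneg _)
  have h3 : ∑ p ∈ S, ∑ q ∈ S, (if p.1 = q.1 then b q ^ 2 * u (p.2⁻¹ * q.2) else 0) / 2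
      ≤ (∑ p ∈ S, b p ^ 2) * (∑ y ∈ Y S, u y) / 2 := by
    rw [Finset.sum_comm, Finset.sum_mul, Finset.sum_div]
    apply Finset.sum_le_sum
    intro q hq
    rw [← Finset.sum_div]
    apply div_le_div_of_nonneg_right _ (by norm_num)
    have : ∑ p ∈ S, (if p.1 = q.1 then b q ^ 2 * u (p.2⁻¹ * q.2) else 0)
        = b q ^ 2 * ∑ p ∈ S, (if p.1 = q.1 then u (p.2⁻¹ * q.2) else 0) := by
      rw [Finset.mul_sum]
      apply Finset.sum_congr rfl
      intro p _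
      split_ifs <;> simp
    rw [this]
    exact mul_le_mul_of_nonneg_left (col_le S u hu q hq) (sq_nonneg _)
  linarith

/-- first bound: self-correlation -/
lemma QQ_self (b : κ × G → ℝ) (hb : ∀ p, 0 ≤ b p) (h0 : ∀ p, p ∉ S → b p = 0) :
    QQ S b (zz S b) ≤ (∑ p ∈ S, b p ^ 2) * (∑ p ∈ S, b p) ^ 2 :=
  (QQ_mono S b hb _ (fun _ => ∑ p ∈ S, b p ^ 2) (fun y => zz_le S b h0 y)).trans
    (QQ_const S b hb _ (Finset.sum_nonneg fun _ _ => sq_nonneg _))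

/-- second bound: counting -/
lemma QQ_cnt (htf : ∀ g : G, IsOfFinOrder g → g = 1) (b : κ × G → ℝ) (hb : ∀ p, 0 ≤ b p)
    (t : ℕ) (ht : t ≤ S.card) :
    QQ S b (fun y => (cnt S y : ℝ)) ≤ t * (∑ p ∈ S, b p) ^ 2
      + (∑ p ∈ S, b p ^ 2) * ((S.card - t : ℕ) : ℝ) ^ 2 := by
  have h1 := QQ_mono S b hb (fun y => (cnt S y : ℝ)) (fun y => (t : ℝ) + ((cnt S y - t : ℕ) : ℝ))
    (fun y => by
      show ((cnt S y : ℕ) : ℝ) ≤ (t : ℝ) + ((cnt S y - t : ℕ) : ℝ)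
      have : cnt S y ≤ t + (cnt S y - t) := by omega
      exact_mod_cast this)
  rw [QQ_add S b (fun _ => (t : ℝ)) (fun y => ((cnt S y - t : ℕ) : ℝ))] at h1
  have h2 := QQ_const S b hb (t : ℝ) (Nat.cast_nonneg _)
  have h3 := QQ_upper S b hb (fun y => ((cnt S y - t : ℕ) : ℝ)) (fun _ => Nat.cast_nonneg _)
  have h4 : (∑ y ∈ Y S, ((cnt S y - t : ℕ) : ℝ)) ≤ ((S.card - t : ℕ) : ℝ) ^ 2 := by
    exact_mod_cast upper S htf t ht
  have h5 : (∑ p ∈ S, b p ^ 2) * (∑ y ∈ Y S, ((cnt S y - t : ℕ) : ℝ))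
      ≤ (∑ p ∈ S, b p ^ 2) * ((S.card - t : ℕ) : ℝ) ^ 2 :=
    mul_le_mul_of_nonneg_left h4 (Finset.sum_nonneg fun _ _ => sq_nonneg _)
  linarith

/-- the numerical conclusion -/
lemma numer (n : ℕ) (hn : 0 < n) (L X r : ℝ) (hX : 0 < X) (hr : 0 ≤ r) (hCS : L ^ 2 ≤ n * X)
    (hXL : X ≤ L ^ 2) (h1 : X ≤ r * L ^ 2)
    (h2 : ∀ t : ℕ, t ≤ n → L ^ 2 ≤ r * (t * L ^ 2 + X * ((n - t : ℕ) : ℝ) ^ 2)) :
    5 ≤ r ^ 2 + 4 * n * r := by
  set k : ℝ := L ^ 2 / X with hk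
  have hL : L ^ 2 = k * X := by rw [hk]; field_simp
  have hk1 : 1 ≤ k := by rw [hk, le_div_iff₀ hX]; linarith
  have hkn : k ≤ n := by rw [hk, div_le_iff₀ hX]; linarith
  have hrk : 1 ≤ r * k := by
    rw [hL] at h1
    have : X * 1 ≤ X * (r * k) := by linarith
    exact le_of_mul_le_mul_left this hX
  -- the rounding
  obtain ⟨s, hs1, hs2, hsn⟩ : ∃ s : ℕ, (s : ℝ) ≤ k / 2 + 1 / 2 ∧ k / 2 - 1 / 2 ≤ (s : ℝ) ∧ s ≤ n := by
    refine ⟨⌊k / 2 + 1 / 2⌋₊, Nat.floor_le (by linarith), ?_, ?_⟩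
    · have := Nat.lt_floor_add_one (k / 2 + 1 / 2)
      linarith
    · have h3 : ⌊k / 2 + 1 / 2⌋₊ < n + 1 := by
        rw [Nat.floor_lt (by linarith)]
        push_cast
        have : (1 : ℝ) ≤ n := by exact_mod_cast hn
        linarith
      omega
  have h3 := h2 (n - s) (by omega)
  rw [show n - (n - s) = s by omega, Nat.cast_sub hsn, hL] at h3
  have h4 : k ≤ r * ((n - s) * k + (s : ℝ) ^ 2) := by
    have : X * k ≤ X * (r * ((n - s) * k + (s : ℝ) ^ 2)) := by nlinarith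
    exact le_of_mul_le_mul_left this hX
  have h5 : (s : ℝ) ^ 2 - s * k ≤ 1 / 4 - k ^ 2 / 4 := by nlinarith
  have h6 : 4 * k ≤ r * (4 * n * k + 1 - k ^ 2) := by
    have : r * ((n - s) * k + (s : ℝ) ^ 2) ≤ r * (n * k + 1 / 4 - k ^ 2 / 4) :=
      mul_le_mul_of_nonneg_left (by nlinarith) hr
    linarith
  -- conclusion
  have h7 : 0 ≤ (r * k - 1) * (1 + r * k) := by
    apply mul_nonneg <;> nlinarith
  -- k * (r^2 + 4 n r - 5) >= 0
  have h8 : 0 ≤ k * (r ^ 2 + 4 * n * r - 5) := by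
    have h9 : k * (r ^ 2 + 4 * n * r - 5) ≥ k * r ^ 2 - k - r + r * k ^ 2 := by nlinarith
    have h10 : k * r ^ 2 - k - r + r * k ^ 2 = (r * k - 1) * (r + k) := by ring
    have h11 : 0 ≤ (r * k - 1) * (r + k) := by
      apply mul_nonneg <;> nlinarith
    linarith
  have hk0 : 0 < k := by linarith
  have h12 : 0 ≤ r ^ 2 + 4 * n * r - 5 := nonneg_of_mul_nonneg_right h8 hk0
  linarith

end H61R3AT
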