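import Pool.Agent.H61R3.AT2

set_option autoImplicit false
set_option linter.unusedSectionVars false
set_option linter.unusedVariables false

open scoped Pointwise InnerProductSpace ENNReal

noncomputable section

namespace H61R3AT

variable {G : Type*} [Group G] {m : ℕ}

open Classical in
/-- basis vectors -/
def sd (p : Fin m × G) : lp (fun _ : Fin m × G => ℂ) 2 := lp.single 2 p (1 : ℂ)

lemma inner_sd_left (p : Fin m × G) (f : lp (fun _ : Fin m × G => ℂ) 2) : ⟪sd p, f⟫_ℂ = f p := by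
  classical
  unfold sd
  have := lp.inner_single_left (𝕜 := ℂ) (G := fun _ : Fin m × G => ℂ) p (1 : ℂ) f
  simpa using this

open Classical in
lemma sd_apply (p q : Fin m × G) : (sd p : lp (fun _ : Fin m × G => ℂ) 2) q = if q = p then 1 else 0 := by
  unfold sd
  by_cases h : q = p
  · subst h
    simp
  · simp [h]

open Classical in
lemma inner_sd_sd (p q : Fin m × G) :
    ⟪(sd p : lp (fun _ : Fin m × G => ℂ) 2), sd q⟫_ℂ = if p = q then 1 else 0 := by
  rw [inner_sd_left, sd_apply]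

open Classical in
lemma norm_comb {τ : Type*} (T : Finset τ) (γ : τ → ℂ) (f : τ → Fin m × G) :
    ‖∑ i ∈ T, γ i • (sd (f i) : lp (fun _ : Fin m × G => ℂ) 2)‖ ^ 2
      ≤ ∑ i ∈ T, ∑ j ∈ T, if f i = f j then ‖γ i‖ * ‖γ j‖ else 0 := by
  have h1 : ((‖∑ i ∈ T, γ i • (sd (f i) : lp (fun _ : Fin m × G => ℂ) 2)‖ ^ 2 : ℝ) : ℂ)
      = ∑ i ∈ T, ∑ j ∈ T, (if f i = f j then (starRingEnd ℂ) (γ i) * γ j else 0) := by
    have h := inner_self_eq_norm_sq_to_K (𝕜 := ℂ)
      (∑ i ∈ T, γ i • (sd (f i) : lp (fun _ : Fin m × G => ℂ) 2))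
    push_cast
    refine h.symm.trans ?_
    rw [sum_inner]
    apply Finset.sum_congr rfl
    intro i _
    rw [inner_sum]
    apply Finset.sum_congr rfl
    intro j _
    rw [inner_smul_left, inner_smul_right, inner_sd_sd]
    split_ifs <;> simp
  have h2 := congrArg Complex.re h1
  rw [Complex.ofReal_re] at h2
  rw [h2]
  simp only [Complex.re_sum]
  apply Finset.sum_le_sum
  intro i _
  apply Finset.sum_le_sum
  intro j _
  split_ifs
  · refine (Complex.re_le_norm _).trans ?_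
    rw [norm_mul, RCLike.norm_conj]
  · simp

/-- the kernel of a column -/
def Kc (S : Finset (Fin m × G)) (c : Fin m × G → ℂ) : Set (lp (fun _ : Fin m × G => ℂ) 2) :=
  {x | ∀ g : G, ∑ q ∈ S, x (q.1, g * q.2⁻¹) * c q = 0}

lemma dist_bound (K : Set (lp (fun _ : Fin m × G => ℂ) 2)) (h0 : (0 : lp (fun _ : Fin m × G => ℂ) 2) ∈ K)
    (d w : lp (fun _ : Fin m × G => ℂ) 2) (hw : ∀ x ∈ K, ⟪w, x⟫_ℂ = 0) :
    ‖⟪d, w⟫_ℂ‖ ≤ Metric.infDist d K * ‖w‖ := by
  rcases eq_or_lt_of_le (norm_nonneg w) with h | h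
  · have : w = 0 := norm_eq_zero.1 h.symm
    simp [this]
  · rw [← div_le_iff₀ h]
    rw [Metric.le_infDist ⟨0, h0⟩]
    intro x hx
    rw [div_le_iff₀ h, dist_eq_norm]
    have h1 : ⟪d, w⟫_ℂ = ⟪d - x, w⟫_ℂ := by
      rw [inner_sub_left]
      have : ⟪x, w⟫_ℂ = 0 := by
        rw [← inner_conj_symm, hw x hx]
        simp
      rw [this, sub_zero]
    rw [h1]
    exact norm_inner_le_norm _ _

variable (S : Finset (Fin m × G)) (c : Fin m × G → ℂ) (w : Fin m × G → ℝ)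

/-- coefficients of the test vectors -/
def gam (k : Fin m) (i : (Fin m × G) × (Fin m × G)) : ℂ :=
  if i.1.1 = k then ((w i.1 : ℝ) : ℂ) * (c i.1 / (‖c i.1‖ : ℂ)) * (starRingEnd ℂ) (c i.2) else 0

/-- position -/
def pos (i : (Fin m × G) × (Fin m × G)) : Fin m × G := (i.2.1, i.1.2 * i.2.2⁻¹)

/-- test vectors -/
def WW (k : Fin m) : lp (fun _ : Fin m × G => ℂ) 2 :=
  ∑ i ∈ S ×ˢ S, gam c w k i • sd (pos i)

lemma WW_perp (k : Fin m) (x : lp (fun _ : Fin m × G => ℂ) 2) (hx : x ∈ Kc S c) :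
    ⟪WW S c w k, x⟫_ℂ = 0 := by
  unfold WW
  rw [sum_inner, Finset.sum_product]
  apply Finset.sum_eq_zero
  intro p _
  have h1 : ∀ q ∈ S, ⟪gam c w k (p, q) • (sd (pos (p, q)) : lp (fun _ : Fin m × G => ℂ) 2), x⟫_ℂ
      = (if p.1 = k then (starRingEnd ℂ) (((w p : ℝ) : ℂ) * (c p / (‖c p‖ : ℂ))) else 0)
        * (x (q.1, p.2 * q.2⁻¹) * c q) := by
    intro q _
    rw [inner_smul_left, inner_sd_left]
    unfold gam pos
    simp only
    split_ifs
    · rw [map_mul, Complex.conj_conj]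
      ring
    · simp
  rw [Finset.sum_congr rfl h1, ← Finset.mul_sum, hx p.2, mul_zero]

lemma WW_inner (k : Fin m) :
    ⟪(sd (k, 1) : lp (fun _ : Fin m × G => ℂ) 2), WW S c w k⟫_ℂ
      = ((∑ p ∈ S, if p.1 = k then w p * ‖c p‖ else 0 : ℝ) : ℂ) := by
  classical
  unfold WW
  rw [inner_sum, Finset.sum_product, Complex.ofReal_sum]
  apply Finset.sum_congr rfl
  intro p hp
  have h1 : ∀ q ∈ S, ⟪(sd (k, 1) : lp (fun _ : Fin m × G => ℂ) 2),
      gam c w k (p, q) • (sd (pos (p, q)) : lp (fun _ : Fin m × G => ℂ) 2)⟫_ℂ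
      = if q = p then ((if p.1 = k then w p * ‖c p‖ else 0 : ℝ) : ℂ) else 0 := by
    intro q _
    rw [inner_smul_right, inner_sd_sd]
    unfold gam pos
    simp only
    by_cases hpk : p.1 = k
    · by_cases hq : q = p
      · subst hq
        simp only [hpk, if_true, mul_inv_cancel]
        have hc : c q * (starRingEnd ℂ) (c q) = ((‖c q‖ ^ 2 : ℝ) : ℂ) := by
          rw [Complex.mul_conj, Complex.normSq_eq_norm_sq]
        rcases eq_or_ne (c q) 0 with h0 | h0
        · simp [h0]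
        · have hn : (‖c q‖ : ℂ) ≠ 0 := by
            simpa using h0
          rw [mul_one]
          push_cast
          field_simp
          rw [mul_assoc, hc]
          push_cast
          ring
      · have hne : ¬ ((k, (1 : G)) = (q.1, p.2 * q.2⁻¹)) := by
          intro h
          rw [Prod.mk.injEq] at h
          apply hq
          refine Prod.ext (h.1.symm.trans hpk.symm) ?_
          have := h.2
          rw [eq_comm, mul_inv_eq_one] at this
          exact this.symm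
        simp [hne, hq]
    · simp [hpk]
  rw [Finset.sum_congr rfl h1, Finset.sum_ite_eq' S p]
  simp [hp]

lemma norm_gam (hw : ∀ p, 0 ≤ w p) (k : Fin m) (i : (Fin m × G) × (Fin m × G)) :
    ‖gam c w k i‖ ≤ if i.1.1 = k then w i.1 * ‖c i.2‖ else 0 := by
  unfold gam
  split_ifs
  · rw [norm_mul, norm_mul, norm_div, RCLike.norm_conj, Complex.norm_real, Complex.norm_real,
      Real.norm_of_nonneg (hw _), Real.norm_of_nonneg (norm_nonneg _)]
    apply mul_le_mul_of_nonneg_right _ (norm_nonneg _)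
    have : ‖c i.1‖ / ‖c i.1‖ ≤ 1 := div_self_le_one _
    calc w i.1 * (‖c i.1‖ / ‖c i.1‖) ≤ w i.1 * 1 := mul_le_mul_of_nonneg_left this (hw _)
      _ = w i.1 := mul_one _
  · simp

open Classical in
lemma sum_norms (hw : ∀ p, 0 ≤ w p) (h0 : ∀ p, p ∉ S → w p = 0) :
    ∑ k, ‖WW S c w k‖ ^ 2 ≤ QQ S (fun p => ‖c p‖) (zz S w) := by
  have h1 : ∀ k, ‖WW S c w k‖ ^ 2 ≤ ∑ p ∈ S, ∑ q ∈ S, ∑ p' ∈ S, ∑ q' ∈ S,
      (if pos (p, q) = pos (p', q') then (if p.1 = k then w p * ‖c q‖ else 0)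
        * (if p'.1 = k then w p' * ‖c q'‖ else 0) else 0) := by
    intro k
    refine (norm_comb _ _ _).trans ?_
    rw [Finset.sum_product]
    apply Finset.sum_le_sum
    intro p _
    apply Finset.sum_le_sum
    intro q _
    rw [Finset.sum_product]
    apply Finset.sum_le_sum
    intro p' _
    apply Finset.sum_le_sum
    intro q' _
    by_cases hpos : pos (p, q) = pos (p', q')
    · rw [if_pos hpos, if_pos hpos]
      refine mul_le_mul (norm_gam c w hw k (p, q)) (norm_gam c w hw k (p', q')) (norm_nonneg _) ?_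
      split_ifs
      · exact mul_nonneg (hw _) (norm_nonneg _)
      · exact le_rfl
    · rw [if_neg hpos, if_neg hpos]
  refine (Finset.sum_le_sum fun k _ => h1 k).trans (le_of_eq ?_)
  -- exchange sums
  have h2 : ∀ p q p' q' : Fin m × G, ∑ k : Fin m,
      (if pos (p, q) = pos (p', q') then (if p.1 = k then w p * ‖c q‖ else 0)
        * (if p'.1 = k then w p' * ‖c q'‖ else 0) else 0)
      = if (q.1 = q'.1 ∧ p' = (p.1, p.2 * (q.2⁻¹ * q'.2))) then w p * ‖c q‖ * (w p' * ‖c q'‖)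
        else 0 := by
    intro p q p' q'
    have hiff : (pos (p, q) = pos (p', q') ∧ p'.1 = p.1)
        ↔ (q.1 = q'.1 ∧ p' = (p.1, p.2 * (q.2⁻¹ * q'.2))) := by
      unfold pos
      simp only [Prod.mk.injEq]
      constructor
      · rintro ⟨⟨h3, h4⟩, h5⟩
        refine ⟨h3, Prod.ext h5 ?_⟩
        show p'.2 = p.2 * (q.2⁻¹ * q'.2)
        rw [← mul_assoc, h4]
        group
      · rintro ⟨h3, h4⟩
        refine ⟨⟨h3, ?_⟩, by rw [h4]⟩
        rw [h4]
        show p.2 * q.2⁻¹ = p.2 * (q.2⁻¹ * q'.2) * q'.2⁻¹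
        group
    by_cases hpos : pos (p, q) = pos (p', q')
    · by_cases hp : p'.1 = p.1
      · rw [if_pos (hiff.1 ⟨hpos, hp⟩)]
        simp only [hpos, if_true, hp]
        rw [Finset.sum_eq_single p.1]
        · simp
        · intro k _ hk
          simp [hk.symm]
        · intro h; exact absurd (Finset.mem_univ _) h
      · rw [if_neg (fun h => hp (hiff.2 h).2)]
        simp only [hpos, if_true]
        apply Finset.sum_eq_zero
        intro k _
        by_cases hk : p.1 = k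
        · have : ¬ p'.1 = k := fun h => hp (h.trans hk.symm)
          simp [this]
        · simp [hk]
    · rw [if_neg (fun h => hpos (hiff.2 h).1)]
      simp [hpos]
  have h3 : ∑ k : Fin m, ∑ p ∈ S, ∑ q ∈ S, ∑ p' ∈ S, ∑ q' ∈ S,
      (if pos (p, q) = pos (p', q') then (if p.1 = k then w p * ‖c q‖ else 0)
        * (if p'.1 = k then w p' * ‖c q'‖ else 0) else 0)
      = ∑ p ∈ S, ∑ q ∈ S, ∑ p' ∈ S, ∑ q' ∈ S,
        (if (q.1 = q'.1 ∧ p' = (p.1, p.2 * (q.2⁻¹ * q'.2))) then w p * ‖c q‖ * (w p' * ‖c q'‖)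
        else 0) := by
    rw [Finset.sum_comm]
    refine Finset.sum_congr rfl fun p _ => ?_
    rw [Finset.sum_comm]
    refine Finset.sum_congr rfl fun q _ => ?_
    rw [Finset.sum_comm]
    refine Finset.sum_congr rfl fun p' _ => ?_
    rw [Finset.sum_comm]
    refine Finset.sum_congr rfl fun q' _ => ?_
    exact h2 p q p' q'
  rw [h3]
  have h4 : ∀ p q q' : Fin m × G, ∑ p' ∈ S,
      (if (q.1 = q'.1 ∧ p' = (p.1, p.2 * (q.2⁻¹ * q'.2))) then w p * ‖c q‖ * (w p' * ‖c q'‖)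
        else 0)
      = if q.1 = q'.1 then ‖c q‖ * ‖c q'‖ * (w p * w (p.1, p.2 * (q.2⁻¹ * q'.2))) else 0 := by
    intro p q q'
    by_cases hq : q.1 = q'.1
    · simp only [hq, true_and, if_true]
      rw [Finset.sum_ite_eq' S (p.1, p.2 * (q.2⁻¹ * q'.2))]
      split_ifs with hmem
      · ring
      · rw [h0 _ hmem]
        ring
    · simp [hq]
  unfold QQ zz
  have h5 : ∑ p ∈ S, ∑ q ∈ S, ∑ p' ∈ S, ∑ q' ∈ S,
        (if (q.1 = q'.1 ∧ p' = (p.1, p.2 * (q.2⁻¹ * q'.2))) then w p * ‖c q‖ * (w p' * ‖c q'‖)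
        else 0)
      = ∑ p ∈ S, ∑ q ∈ S, ∑ q' ∈ S,
        (if q.1 = q'.1 then ‖c q‖ * ‖c q'‖ * (w p * w (p.1, p.2 * (q.2⁻¹ * q'.2))) else 0) := by
    refine Finset.sum_congr rfl fun p _ => Finset.sum_congr rfl fun q _ => ?_
    rw [Finset.sum_comm]
    exact Finset.sum_congr rfl fun q' _ => h4 p q q'
  rw [h5, Finset.sum_comm]
  refine Finset.sum_congr rfl fun q _ => ?_
  rw [Finset.sum_comm]
  refine Finset.sum_congr rfl fun q' _ => ?_
  by_cases hq : q.1 = q'.1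
  · simp only [hq, if_true]
    rw [Finset.mul_sum]
  · simp [hq]

open Classical in
/-- the basic inequality -/
lemma basic (hw : ∀ p, 0 ≤ w p) (h0 : ∀ p, p ∉ S → w p = 0) :
    (∑ p ∈ S, w p * ‖c p‖) ^ 2
      ≤ (∑ k : Fin m, Metric.infDist (sd (k, 1) : lp (fun _ : Fin m × G => ℂ) 2) (Kc S c) ^ 2)
        * QQ S (fun p => ‖c p‖) (zz S w) := by
  have hK : (0 : lp (fun _ : Fin m × G => ℂ) 2) ∈ Kc S c := by
    intro g
    simp
  have h1 : ∀ k : Fin m, (∑ p ∈ S, if p.1 = k then w p * ‖c p‖ else 0)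
      ≤ Metric.infDist (sd (k, 1) : lp (fun _ : Fin m × G => ℂ) 2) (Kc S c) * ‖WW S c w k‖ := by
    intro k
    have h2 := dist_bound (Kc S c) hK (sd (k, 1)) (WW S c w k) (fun x hx => WW_perp S c w k x hx)
    rw [WW_inner, Complex.norm_real] at h2
    exact (Real.le_norm_self _).trans h2
  have h3 : (∑ p ∈ S, w p * ‖c p‖) = ∑ k : Fin m, ∑ p ∈ S, if p.1 = k then w p * ‖c p‖ else 0 := by
    rw [Finset.sum_comm]
    refine Finset.sum_congr rfl fun p _ => ?_
    simp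
  have h4 : (∑ p ∈ S, w p * ‖c p‖) ≤ ∑ k : Fin m,
      Metric.infDist (sd (k, 1) : lp (fun _ : Fin m × G => ℂ) 2) (Kc S c) * ‖WW S c w k‖ := by
    rw [h3]
    exact Finset.sum_le_sum fun k _ => h1 k
  have h5 : 0 ≤ ∑ p ∈ S, w p * ‖c p‖ :=
    Finset.sum_nonneg fun p _ => mul_nonneg (hw p) (norm_nonneg _)
  have h6 := pow_le_pow_left₀ h5 h4 2
  refine h6.trans ((Finset.sum_mul_sq_le_sq_mul_sq _ _ _).trans ?_)
  exact mul_le_mul_of_nonneg_left (sum_norms S c w hw h0) (Finset.sum_nonneg fun _ _ => sq_nonneg _)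

open Classical in
/-- main inequality for a column -/
theorem column (htf : ∀ g : G, IsOfFinOrder g → g = 1) (hc : ∀ p, p ∈ S ↔ c p ≠ 0)
    (hS : S.Nonempty) :
    5 ≤ (∑ k : Fin m, Metric.infDist (sd (k, 1) : lp (fun _ : Fin m × G => ℂ) 2) (Kc S c) ^ 2) ^ 2
      + 4 * S.card
        * (∑ k : Fin m, Metric.infDist (sd (k, 1) : lp (fun _ : Fin m × G => ℂ) 2) (Kc S c) ^ 2) := by
  set r := ∑ k : Fin m, Metric.infDist (sd (k, 1) : lp (fun _ : Fin m × G => ℂ) 2) (Kc S c) ^ 2 with hr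
  have hb : ∀ p : Fin m × G, 0 ≤ ‖c p‖ := fun p => norm_nonneg _
  have hb0 : ∀ p, p ∉ S → ‖c p‖ = 0 := by
    intro p hp
    rw [hc] at hp
    push Not at hp
    rw [hp, norm_zero]
  have hr0 : 0 ≤ r := Finset.sum_nonneg fun _ _ => sq_nonneg _
  have hX : 0 < ∑ p ∈ S, ‖c p‖ ^ 2 := by
    apply Finset.sum_pos _ hS
    intro p hp
    have := (hc p).1 hp
    positivity
  refine numer S.card hS.card_pos (∑ p ∈ S, ‖c p‖) (∑ p ∈ S, ‖c p‖ ^ 2) r hX hr0 ?_ ?_ ?_ ?_
  · have := sq_sum_le_card_mul_sum_sq (s := S) (f := fun p => ‖c p‖)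
    exact this
  · exact Finset.sum_sq_le_sq_sum_of_nonneg (fun p _ => hb p)
  · have h1 := basic S c (fun p => ‖c p‖) hb hb0
    have h2 := QQ_self S (fun p => ‖c p‖) hb hb0
    have h3 : (∑ p ∈ S, ‖c p‖ * ‖c p‖) = ∑ p ∈ S, ‖c p‖ ^ 2 :=
      Finset.sum_congr rfl fun p _ => (pow_two _).symm
    rw [h3, ← hr] at h1
    have h4 := h1.trans (mul_le_mul_of_nonneg_left h2 hr0)
    have h5 : (∑ p ∈ S, ‖c p‖ ^ 2) * (∑ p ∈ S, ‖c p‖ ^ 2)
        ≤ (∑ p ∈ S, ‖c p‖ ^ 2) * (r * (∑ p ∈ S, ‖c p‖) ^ 2) := by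
      calc _ = (∑ p ∈ S, ‖c p‖ ^ 2) ^ 2 := (pow_two _).symm
        _ ≤ _ := h4
        _ = _ := by ring
    exact le_of_mul_le_mul_left h5 hX
  · intro t ht
    have h1 := basic S c (fun p => if p ∈ S then 1 else 0) (fun p => by split_ifs <;> norm_num)
      (fun p hp => by simp [hp])
    have h2 := QQ_cnt S htf (fun p => ‖c p‖) hb t ht
    have h3 : (∑ p ∈ S, (if p ∈ S then (1 : ℝ) else 0) * ‖c p‖) = ∑ p ∈ S, ‖c p‖ := by
      refine Finset.sum_congr rfl fun p hp => ?_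
      simp [hp]
    have h4 : zz S (fun p => if p ∈ S then (1 : ℝ) else 0) = fun y => (cnt S y : ℝ) := by
      funext y
      exact zz_ind S y
    rw [h3, h4, ← hr] at h1
    exact h1.trans (mul_le_mul_of_nonneg_left h2 hr0)

end H61R3AT
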