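import Pool.Agent.H61R3.NG2

set_option autoImplicit false
set_option linter.unusedSectionVars false

open scoped ENNReal InnerProductSpace Pointwise

noncomputable section

namespace H61R3NG

variable {G : Type*} [Group G]

/-- The range of the convolution operator of an idempotent. -/
def Vr (e : MonoidAlgebra ℂ G) : Submodule ℂ (E2 G) :=
  LinearMap.ker ((Top G e - 1 : E2 G →L[ℂ] E2 G) : E2 G →ₗ[ℂ] E2 G)

lemma mem_Vr (e : MonoidAlgebra ℂ G) (f : E2 G) : f ∈ Vr e ↔ Top G e f = f := by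
  unfold Vr
  rw [LinearMap.mem_ker]
  simp [sub_eq_zero]

instance instVr (e : MonoidAlgebra ℂ G) : (Vr e).HasOrthogonalProjection := by
  have hc : IsClosed ((Vr e : Submodule ℂ (E2 G)) : Set (E2 G)) :=
    (Top G e - 1 : E2 G →L[ℂ] E2 G).isClosed_ker
  haveI : CompleteSpace (Vr e) := hc.completeSpace_coe
  infer_instance

lemma Vr_inv (e : MonoidAlgebra ℂ G) (g : G) (f : E2 G) (hf : f ∈ Vr e) : Rt g f ∈ Vr e := by
  rw [mem_Vr] at hf ⊢
  rw [Top_Rt, hf]

section idem

variable (e : MonoidAlgebra ℂ G)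

/-- the trace -/
def tr : ℝ := ‖xi (Vr e)‖ ^ 2

/-- the norm -/
def N1 : ℝ := ∑ x ∈ e.coeff.support, ‖e.coeff x‖

lemma sum_xi : ∑ x ∈ e.coeff.support, e.coeff x * xi (Vr e) x⁻¹ = (tr e : ℂ) := by
  have h1 : Top G e (xi (Vr e)) = xi (Vr e) := (mem_Vr e _).1 xi_mem
  have h2 : ⟪xi (Vr e), Top G e (xi (Vr e))⟫_ℂ = (tr e : ℂ) := by
    rw [h1, inner_self_eq_norm_sq_to_K]
    unfold tr
    push_cast
    rfl
  rw [← h2, Top_apply, inner_sum]
  refine Finset.sum_congr rfl fun x _ => ?_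
  rw [inner_smul_right, inner_Lt_xi (Vr_inv e)]

variable (he : e * e = e)

include he in
lemma vec_mem : Top G e (dl 1) ∈ Vr e := by
  rw [mem_Vr, ← ContinuousLinearMap.mul_apply, ← map_mul, he]

include he in
lemma coeff_eq (x : G) :
    e.coeff x = ∑ z ∈ e.coeff.support, e.coeff z * xi (Vr e) (x * z⁻¹) := by
  classical
  have h1 : (Vr e).starProjection (Top G e (dl 1)) = Top G e (dl 1) :=
    Submodule.starProjection_eq_self_iff.2 (vec_mem e he)
  have h2 : Top G e (dl 1) x = ⟪Rt x⁻¹ (xi (Vr e)), Top G e (dl 1)⟫_ℂ := by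
    conv_lhs => rw [← h1]
    rw [proj_apply (Vr_inv e)]
  rw [← Top_dl e x, h2, Top_apply, inner_sum]
  refine Finset.sum_congr rfl fun z _ => ?_
  rw [inner_smul_right, Lt_dl, inner_dl_right, Rt_apply, mul_one, ← xi_inv (Vr_inv e),
    mul_inv_rev, inv_inv]

include he in
lemma coeff_one : e.coeff 1 = (tr e : ℂ) := by
  rw [coeff_eq e he, ← sum_xi e]
  simp

include he in
lemma coeff_le (x : G) : ‖e.coeff x‖ ≤ N1 e * tr e := by
  rw [coeff_eq e he x]
  refine (norm_sum_le _ _).trans ?_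
  unfold N1
  rw [Finset.sum_mul]
  refine Finset.sum_le_sum fun z _ => ?_
  rw [norm_mul]
  exact mul_le_mul_of_nonneg_left (norm_xi_le (Vr_inv e) _) (norm_nonneg _)

include he in
lemma tr_pos (h0 : e ≠ 0) : 0 < tr e := by
  unfold tr
  by_contra h
  have h1 : ‖xi (Vr e)‖ ^ 2 = 0 := le_antisymm (not_lt.1 h) (sq_nonneg _)
  have h2 : ∀ x, ‖e.coeff x‖ ≤ 0 := by
    intro x
    have := coeff_le e he x
    unfold tr at this
    rwa [h1, mul_zero] at this
  apply h0
  ext x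
  have := norm_le_zero_iff.1 (h2 x)
  simpa using this

lemma tr_one_sub (he : e * e = e) : tr (1 - e) = 1 - tr e := by
  have h1 : (1 - e) * (1 - e) = 1 - e := by
    rw [mul_sub, sub_mul, sub_mul, he]
    simp
  have h2 := coeff_one (1 - e) h1
  have h3 := coeff_one e he
  have h4 : (1 - e : MonoidAlgebra ℂ G).coeff 1 = 1 - e.coeff 1 := by
    simp [MonoidAlgebra.one_def]
  rw [h4, h3] at h2
  exact_mod_cast h2.symm

lemma N1_eq (S : Finset G) (hS : e.coeff.support ⊆ S) : N1 e = ∑ x ∈ S, ‖e.coeff x‖ := by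
  unfold N1
  refine Finset.sum_subset hS fun x _ hx => ?_
  rw [Finsupp.notMem_support_iff.1 hx, norm_zero]

lemma N1_one_sub (he : e * e = e) (ht0 : 0 ≤ tr e) (ht1 : tr e ≤ 1) :
    N1 (1 - e) = N1 e + 1 - 2 * tr e := by
  classical
  set S : Finset G := insert 1 (e.coeff.support ∪ (1 - e : MonoidAlgebra ℂ G).coeff.support)
    with hS
  have h1 : N1 e = ∑ x ∈ S, ‖e.coeff x‖ := N1_eq e S (by
    intro x hx
    simp only [hS, Finset.mem_insert, Finset.mem_union]
    exact Or.inr (Or.inl hx))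
  have h2 : N1 (1 - e) = ∑ x ∈ S, ‖(1 - e : MonoidAlgebra ℂ G).coeff x‖ := N1_eq (1 - e) S (by
    intro x hx
    simp only [hS, Finset.mem_insert, Finset.mem_union]
    exact Or.inr (Or.inr hx))
  have h1S : (1 : G) ∈ S := by simp [hS]
  rw [h1, h2, ← Finset.add_sum_erase S _ h1S, ← Finset.add_sum_erase S _ h1S]
  have h3 : ∀ x ∈ S.erase 1, ‖(1 - e : MonoidAlgebra ℂ G).coeff x‖ = ‖e.coeff x‖ := by
    intro x hx
    have hx1 : x ≠ 1 := Finset.ne_of_mem_erase hx
    have : (1 - e : MonoidAlgebra ℂ G).coeff x = - e.coeff x := by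
      simp [MonoidAlgebra.one_def, hx1]
    rw [this, norm_neg]
  rw [Finset.sum_congr rfl h3]
  have h4 : (1 - e : MonoidAlgebra ℂ G).coeff 1 = ((1 - tr e : ℝ) : ℂ) := by
    have : (1 - e : MonoidAlgebra ℂ G).coeff 1 = 1 - e.coeff 1 := by
      simp [MonoidAlgebra.one_def]
    rw [this, coeff_one e he]
    push_cast
    ring
  rw [h4, coeff_one e he, Complex.norm_real, Complex.norm_real, Real.norm_of_nonneg ht0,
    Real.norm_of_nonneg (by linarith)]
  ring

end idem

end H61R3NG
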