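import Pool.Agent.H61R3.NG3

set_option autoImplicit false
set_option linter.unusedSectionVars false

open scoped ENNReal InnerProductSpace
open Filter Topology

noncomputable section

namespace H61R3NG

variable {G : Type*} [Group G]

/-- Bounded operators commuting with right translations. -/
def Com (S : E2 G →L[ℂ] E2 G) : Prop := ∀ (g : G) (f : E2 G), S (Rt g f) = Rt g (S f)

lemma Com.one : Com (1 : E2 G →L[ℂ] E2 G) := fun _ _ => rfl

lemma Com.mul {S T : E2 G →L[ℂ] E2 G} (hS : Com S) (hT : Com T) : Com (S * T) := by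
  intro g f
  show S (T (Rt g f)) = Rt g (S (T f))
  rw [hT, hS]

lemma Com.add {S T : E2 G →L[ℂ] E2 G} (hS : Com S) (hT : Com T) : Com (S + T) := by
  intro g f
  show S (Rt g f) + T (Rt g f) = Rt g (S f + T f)
  rw [hT, hS, map_add]

lemma Com.sub {S T : E2 G →L[ℂ] E2 G} (hS : Com S) (hT : Com T) : Com (S - T) := by
  intro g f
  show S (Rt g f) - T (Rt g f) = Rt g (S f - T f)
  rw [hT, hS, map_sub]

lemma Com.smul {S : E2 G →L[ℂ] E2 G} (hS : Com S) (c : ℂ) : Com (c • S) := by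
  intro g f
  show c • S (Rt g f) = Rt g (c • S f)
  rw [hS, map_smul]

lemma Com.pow {S : E2 G →L[ℂ] E2 G} (hS : Com S) (n : ℕ) : Com (S ^ n) := by
  induction n with
  | zero => rw [pow_zero]; exact Com.one
  | succ n ih => rw [pow_succ]; exact ih.mul hS

lemma inner_Rt (g : G) (f w : E2 G) : ⟪Rt g f, w⟫_ℂ = ⟪f, Rt g⁻¹ w⟫_ℂ := by
  rw [← LinearIsometry.inner_map_map (Rt g) f (Rt g⁻¹ w), Rt_Rt]
  simp [Rt_one]

lemma Com.adjoint {S : E2 G →L[ℂ] E2 G} (hS : Com S) : Com (ContinuousLinearMap.adjoint S) := by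
  intro g f
  refine ext_inner_right ℂ fun w => ?_
  rw [ContinuousLinearMap.adjoint_inner_left, inner_Rt, ← hS, inner_Rt,
    ContinuousLinearMap.adjoint_inner_left]

lemma Com_Top (a : MonoidAlgebra ℂ G) : Com (Top G a) := fun g f => Top_Rt a g f

/-- The canonical trace. -/
def trc (S : E2 G →L[ℂ] E2 G) : ℂ := ⟪dl (1 : G), S (dl 1)⟫_ℂ

lemma adj_dl {S : E2 G →L[ℂ] E2 G} (hS : Com S) (x : G) :
    (starRingEnd ℂ) ((ContinuousLinearMap.adjoint S) (dl 1) x) = S (dl 1) x⁻¹ := by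
  rw [← inner_dl_left x, ContinuousLinearMap.adjoint_inner_right, inner_dl_right]
  have h : dl x = Rt x⁻¹ (dl (1:G)) := by rw [Rt_dl]; simp
  rw [h, hS]
  simp

lemma trc_mul {S T : E2 G →L[ℂ] E2 G} (hS : Com S) :
    trc (S * T) = ∑' x : G, S (dl 1) x⁻¹ * T (dl 1) x := by
  unfold trc
  show ⟪dl (1:G), S (T (dl 1))⟫_ℂ = _
  rw [← ContinuousLinearMap.adjoint_inner_left, lp.inner_eq_tsum]
  congr 1
  funext x
  rw [← adj_dl hS]
  simp [mul_comm]

lemma trc_comm {S T : E2 G →L[ℂ] E2 G} (hS : Com S) (hT : Com T) :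
    trc (S * T) = trc (T * S) := by
  rw [trc_mul hS, trc_mul hT, ← (Equiv.inv G).tsum_eq]
  congr 1
  funext x
  simp [mul_comm]

instance instKer (S : E2 G →L[ℂ] E2 G) :
    (LinearMap.ker (S : E2 G →ₗ[ℂ] E2 G)).HasOrthogonalProjection := by
  have hc : IsClosed ((LinearMap.ker (S : E2 G →ₗ[ℂ] E2 G) : Submodule ℂ (E2 G)) : Set (E2 G)) :=
    S.isClosed_ker
  have : CompleteSpace (LinearMap.ker (S : E2 G →ₗ[ℂ] E2 G)) := hc.completeSpace_coe
  infer_instance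

/-- von Neumann dimension of a closed subspace -/
def kd (V : Submodule ℂ (E2 G)) [V.HasOrthogonalProjection] : ℝ := ‖xi V‖ ^ 2

lemma kd_eq (V : Submodule ℂ (E2 G)) [V.HasOrthogonalProjection] :
    ⟪dl (1:G), V.starProjection (dl 1)⟫_ℂ = (kd V : ℂ) := by
  rw [inner_dl_left]
  exact xi_one

/-- mean ergodic theorem -/
lemma erg (C : E2 G →L[ℂ] E2 G) (hC : ‖C‖ ≤ 1) (V : Submodule ℂ (E2 G))
    [V.HasOrthogonalProjection] (hV : ∀ x, x ∈ V ↔ C x = x) :
    Tendsto (fun N : ℕ => (N : ℂ)⁻¹ * ∑ n ∈ Finset.range N, trc (C ^ n)) atTop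
      (𝓝 (kd V : ℂ)) := by
  have h := ContinuousLinearMap.tendsto_birkhoffAverage_orthogonalProjection C hC (dl (1:G))
  have h3 : Tendsto (fun N : ℕ => ⟪dl (1:G), birkhoffAverage ℂ C _root_.id N (dl (1:G))⟫_ℂ) atTop
      (𝓝 ⟪dl (1:G), ((C.eqLocus (1 : E2 G →L[ℂ] E2 G)).orthogonalProjectionOnto (dl 1) : E2 G)⟫_ℂ) :=
    ((innerSL ℂ (dl (1:G))).continuous.tendsto _).comp h
  have hVeq : V = C.eqLocus (1 : E2 G →L[ℂ] E2 G) := by
    ext x
    rw [hV]
    rfl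
  have h4 : ⟪dl (1:G), ((C.eqLocus (1 : E2 G →L[ℂ] E2 G)).orthogonalProjectionOnto (dl 1) : E2 G)⟫_ℂ
      = (kd V : ℂ) := by
    subst hVeq
    rw [← kd_eq]
    rfl
  rw [h4] at h3
  refine h3.congr fun N => ?_
  rw [birkhoffAverage, inner_smul_right, birkhoffSum, inner_sum]
  congr 1
  refine Finset.sum_congr rfl fun n _ => ?_
  unfold trc
  simp only [_root_.id]
  congr 1
  rw [← ContinuousLinearMap.coe_pow']

lemma kd_congr (V W : Submodule ℂ (E2 G)) [V.HasOrthogonalProjection]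
    [W.HasOrthogonalProjection] (h : V = W) : kd V = kd W := by
  subst h
  rfl

end H61R3NG
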