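import Pool.Agent.H61R3.KD1

set_option autoImplicit false
set_option linter.unusedSectionVars false

open scoped ENNReal InnerProductSpace
open Filter Topology

noncomputable section

namespace H61R3NG

variable {G : Type*} [Group G]

lemma poly_id (S : E2 G →L[ℂ] E2 G) (hS : Com S) (c : ℂ) (n : ℕ) :
    ∃ X : E2 G →L[ℂ] E2 G, Com X ∧
      (1 - c • (ContinuousLinearMap.adjoint S * S)) ^ n
        = 1 + ContinuousLinearMap.adjoint S * X * S ∧
      (1 - c • (S * ContinuousLinearMap.adjoint S)) ^ n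
        = 1 + X * (S * ContinuousLinearMap.adjoint S) := by
  set T := ContinuousLinearMap.adjoint S with hT
  have hTc : Com T := hS.adjoint
  induction n with
  | zero =>
    refine ⟨0, ?_, ?_, ?_⟩
    · intro g f; simp
    · simp
    · simp
  | succ n ih =>
    obtain ⟨X, hX, h1, h2⟩ := ih
    refine ⟨X - c • 1 - c • (X * (S * T)), ?_, ?_, ?_⟩
    · exact (hX.sub (Com.one.smul c)).sub ((hX.mul (hS.mul hTc)).smul c)
    · rw [pow_succ, h1]
      simp only [mul_sub, add_mul, sub_mul, smul_add, mul_one, one_mul, smul_mul_assoc,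
        mul_smul_comm, mul_assoc]
      abel
    · rw [pow_succ, h2]
      simp only [mul_sub, add_mul, sub_mul, smul_add, mul_one, one_mul, smul_mul_assoc,
        mul_smul_comm, mul_assoc]
      abel

lemma trc_add (S T : E2 G →L[ℂ] E2 G) : trc (S + T) = trc S + trc T := by
  unfold trc
  rw [_root_.add_apply, inner_add_right]

lemma trc_pow_eq (S : E2 G →L[ℂ] E2 G) (hS : Com S) (c : ℂ) (n : ℕ) :
    trc ((1 - c • (ContinuousLinearMap.adjoint S * S)) ^ n)
      = trc ((1 - c • (S * ContinuousLinearMap.adjoint S)) ^ n) := by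
  obtain ⟨X, hX, h1, h2⟩ := poly_id S hS c n
  rw [h1, h2, trc_add, trc_add, mul_assoc, trc_comm hS.adjoint (hX.mul hS), mul_assoc]

lemma contr (S : E2 G →L[ℂ] E2 G) (c : ℝ) (hc : 0 ≤ c) (hc2 : c * ‖S‖ ^ 2 ≤ 1) :
    ‖(1 - (c : ℂ) • (ContinuousLinearMap.adjoint S * S) : E2 G →L[ℂ] E2 G)‖ ≤ 1 := by
  refine ContinuousLinearMap.opNorm_le_bound _ zero_le_one fun x => ?_
  rw [one_mul]
  apply le_of_sq_le_sq _ (norm_nonneg _)
  set A := ContinuousLinearMap.adjoint S * S with hA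
  have h1 : (1 - (c : ℂ) • A : E2 G →L[ℂ] E2 G) x = x - (c : ℂ) • A x := rfl
  have hAx : A x = ContinuousLinearMap.adjoint S (S x) := rfl
  rw [h1, @norm_sub_sq ℂ]
  have h2 : RCLike.re ⟪x, (c : ℂ) • A x⟫_ℂ = c * ‖S x‖ ^ 2 := by
    rw [inner_smul_right, hAx, ContinuousLinearMap.adjoint_inner_right,
      inner_self_eq_norm_sq_to_K]
    have : (c : ℂ) * ((‖S x‖ : ℂ)) ^ 2 = ((c * ‖S x‖ ^ 2 : ℝ) : ℂ) := by push_cast; ring
    erw [this]
    simp only [RCLike.re_to_complex, Complex.ofReal_re]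
  rw [h2, norm_smul, Complex.norm_real, Real.norm_of_nonneg hc]
  have h3 : ‖A x‖ ≤ ‖S‖ * ‖S x‖ := by
    rw [hAx]
    refine (ContinuousLinearMap.le_opNorm _ _).trans ?_
    rw [LinearIsometryEquiv.norm_map]
  have h4 : (c * ‖A x‖) ^ 2 ≤ c * ‖S x‖ ^ 2 := by
    have h5 : ‖A x‖ ^ 2 ≤ ‖S‖ ^ 2 * ‖S x‖ ^ 2 := by
      rw [← mul_pow]
      exact pow_le_pow_left₀ (norm_nonneg _) h3 2
    calc (c * ‖A x‖) ^ 2 = c * (c * ‖A x‖ ^ 2) := by ring
      _ ≤ c * (c * (‖S‖ ^ 2 * ‖S x‖ ^ 2)) := by gcongr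
      _ = c * ((c * ‖S‖ ^ 2) * ‖S x‖ ^ 2) := by ring
      _ ≤ c * (1 * ‖S x‖ ^ 2) := by gcongr
      _ = c * ‖S x‖ ^ 2 := by ring
  nlinarith [sq_nonneg ‖S x‖, mul_nonneg hc (sq_nonneg ‖S x‖)]

lemma ker_adj_mul (S : E2 G →L[ℂ] E2 G) (x : E2 G) :
    (ContinuousLinearMap.adjoint S * S) x = 0 ↔ S x = 0 := by
  constructor
  · intro h
    have h1 : ⟪x, (ContinuousLinearMap.adjoint S * S) x⟫_ℂ = 0 := by rw [h, inner_zero_right]
    have h2 : (ContinuousLinearMap.adjoint S * S) x = ContinuousLinearMap.adjoint S (S x) := rfl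
    rw [h2, ContinuousLinearMap.adjoint_inner_right] at h1
    exact inner_self_eq_zero.1 h1
  · intro h
    show ContinuousLinearMap.adjoint S (S x) = 0
    rw [h, map_zero]

/-- The kernels of an operator of the group von Neumann algebra and of its adjoint have the same
dimension. -/
lemma kd_adjoint (S : E2 G →L[ℂ] E2 G) (hS : Com S) :
    kd (LinearMap.ker (S : E2 G →ₗ[ℂ] E2 G))
      = kd (LinearMap.ker ((ContinuousLinearMap.adjoint S : E2 G →L[ℂ] E2 G) : E2 G →ₗ[ℂ] E2 G)) := by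
  set c : ℝ := 1 / (‖S‖ ^ 2 + 1) with hcdef
  have hpos : 0 < ‖S‖ ^ 2 + 1 := by positivity
  have hc : 0 < c := by positivity
  have hc2 : c * ‖S‖ ^ 2 ≤ 1 := by
    rw [hcdef, one_div, inv_mul_le_iff₀ hpos]
    linarith
  have hcc : (c : ℂ) ≠ 0 := by exact_mod_cast hc.ne'
  have hadj : ContinuousLinearMap.adjoint (ContinuousLinearMap.adjoint S) = S :=
    ContinuousLinearMap.adjoint_adjoint S
  have fix : ∀ (T : E2 G →L[ℂ] E2 G) (x : E2 G),
      x ∈ LinearMap.ker (T : E2 G →ₗ[ℂ] E2 G) ↔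
        (1 - (c : ℂ) • (ContinuousLinearMap.adjoint T * T) : E2 G →L[ℂ] E2 G) x = x := by
    intro T x
    rw [LinearMap.mem_ker]
    have h1 : (1 - (c : ℂ) • (ContinuousLinearMap.adjoint T * T) : E2 G →L[ℂ] E2 G) x
        = x - (c : ℂ) • (ContinuousLinearMap.adjoint T * T) x := rfl
    rw [h1, sub_eq_self, smul_eq_zero, or_iff_right hcc, ker_adj_mul]
    rfl
  have e1 := erg (1 - (c : ℂ) • (ContinuousLinearMap.adjoint S * S)) (contr S c hc.le hc2)
    (LinearMap.ker (S : E2 G →ₗ[ℂ] E2 G)) (fix S)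
  have hc3 : c * ‖ContinuousLinearMap.adjoint S‖ ^ 2 ≤ 1 := by
    rwa [LinearIsometryEquiv.norm_map]
  have e2 := erg (1 - (c : ℂ) • (ContinuousLinearMap.adjoint (ContinuousLinearMap.adjoint S) *
      ContinuousLinearMap.adjoint S)) (contr (ContinuousLinearMap.adjoint S) c hc.le hc3)
    (LinearMap.ker ((ContinuousLinearMap.adjoint S : E2 G →L[ℂ] E2 G) : E2 G →ₗ[ℂ] E2 G))
    (fix _)
  rw [hadj] at e2
  have e3 : ∀ n, trc ((1 - (c : ℂ) • (ContinuousLinearMap.adjoint S * S)) ^ n)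
      = trc ((1 - (c : ℂ) • (S * ContinuousLinearMap.adjoint S)) ^ n) :=
    fun n => trc_pow_eq S hS c n
  simp only [e3] at e1
  exact_mod_cast tendsto_nhds_unique e1 e2

end H61R3NG
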