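import Pool.Agent.H61R3.KD2

set_option autoImplicit false
set_option linter.unusedSectionVars false

open scoped ENNReal InnerProductSpace
open Filter Topology

noncomputable section

namespace H61R3NG

variable {G : Type*} [Group G]

/-- right invariance -/
def RInv (V : Submodule ℂ (E2 G)) : Prop := ∀ (g : G) (f : E2 G), f ∈ V → Rt g f ∈ V

lemma RInv_ker {S : E2 G →L[ℂ] E2 G} (hS : Com S) :
    RInv (LinearMap.ker (S : E2 G →ₗ[ℂ] E2 G)) := by
  intro g f hf
  rw [LinearMap.mem_ker] at hf ⊢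
  have hf' : S f = 0 := hf
  show S (Rt g f) = 0
  rw [hS, hf', map_zero]

lemma RInv_orth {V : Submodule ℂ (E2 G)} (hV : RInv V) : RInv Vᗮ := by
  intro g f hf
  rw [Submodule.mem_orthogonal'] at hf ⊢
  intro w hw
  rw [inner_Rt]
  exact hf _ (hV _ _ hw)

lemma kd_orth (V : Submodule ℂ (E2 G)) [V.HasOrthogonalProjection] : kd Vᗮ = 1 - kd V := by
  have h1 : V.starProjection (dl (1:G)) + Vᗮ.starProjection (dl 1) = dl 1 :=
    Submodule.starProjection_add_starProjection_orthogonal _
  have h2 := congrArg (fun v => ⟪dl (1:G), v⟫_ℂ) h1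
  simp only [inner_add_right, kd_eq] at h2
  have h3 : ⟪dl (1:G), dl (1:G)⟫_ℂ = 1 := by
    rw [inner_dl_left, dl_apply, if_pos rfl]
  rw [h3] at h2
  have h4 : kd V + kd Vᗮ = 1 := by exact_mod_cast h2
  linarith

lemma kd_mono (V W : Submodule ℂ (E2 G)) [V.HasOrthogonalProjection]
    [W.HasOrthogonalProjection] (h : V ≤ W) : kd V ≤ kd W := by
  have h1 : V.starProjection (dl (1:G)) = V.starProjection (W.starProjection (dl (1:G))) := by
    have := Submodule.starProjection_comp_starProjection_of_le h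
    rw [← ContinuousLinearMap.comp_apply, this]
  unfold kd xi
  rw [h1]
  exact pow_le_pow_left₀ (norm_nonneg _) (Submodule.norm_starProjection_apply_le _ _) 2

lemma proj_adj (V : Submodule ℂ (E2 G)) [V.HasOrthogonalProjection] :
    ContinuousLinearMap.adjoint V.starProjection = V.starProjection := by
  symm
  rw [ContinuousLinearMap.eq_adjoint_iff]
  intro x y
  exact Submodule.inner_starProjection_left_eq_right _ _ _

lemma kd_disj (V W : Submodule ℂ (E2 G)) [V.HasOrthogonalProjection]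
    [W.HasOrthogonalProjection] (hV : RInv V) (hW : RInv W) (h : ∀ f ∈ V, f ∈ W → f = 0) :
    kd V + kd W ≤ 1 := by
  set S : E2 G →L[ℂ] E2 G := Wᗮ.starProjection * V.starProjection with hS
  have hPV : Com V.starProjection := fun g f => proj_Rt hV g f
  have hPW : Com Wᗮ.starProjection := fun g f => proj_Rt (RInv_orth hW) g f
  have hcom : Com S := hPW.mul hPV
  have hadj : ContinuousLinearMap.adjoint S = V.starProjection * Wᗮ.starProjection := by
    rw [hS, ContinuousLinearMap.mul_def, ContinuousLinearMap.adjoint_comp, proj_adj, proj_adj]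
    rfl
  have hk : LinearMap.ker (S : E2 G →ₗ[ℂ] E2 G) = Vᗮ := by
    ext x
    rw [LinearMap.mem_ker]
    have e1 : (S : E2 G →ₗ[ℂ] E2 G) x = Wᗮ.starProjection (V.starProjection x) := rfl
    rw [e1]
    constructor
    · intro hx
      rw [Submodule.starProjection_apply_eq_zero_iff] at hx
      have hx2 : V.starProjection x ∈ W := by
        rwa [Submodule.orthogonal_orthogonal] at hx
      have hx3 := h _ (Submodule.starProjection_apply_mem _ _) hx2
      rwa [Submodule.starProjection_apply_eq_zero_iff] at hx3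
    · intro hx
      rw [← Submodule.starProjection_apply_eq_zero_iff] at hx
      rw [hx, map_zero]
  have hk2 : W ≤ LinearMap.ker ((ContinuousLinearMap.adjoint S : E2 G →L[ℂ] E2 G) :
      E2 G →ₗ[ℂ] E2 G) := by
    intro x hx
    rw [LinearMap.mem_ker, hadj]
    show V.starProjection (Wᗮ.starProjection x) = 0
    have : Wᗮ.starProjection x = 0 := by
      rw [Submodule.starProjection_apply_eq_zero_iff, Submodule.orthogonal_orthogonal]
      exact hx
    rw [this, map_zero]
  have e1 := kd_adjoint S hcom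
  rw [kd_congr _ _ hk, kd_orth] at e1
  have e2 := kd_mono _ _ hk2
  linarith

/-- the positive part minus kappa -/
lemma cfc_part (B D D' R : E2 G →L[ℂ] E2 G) (hBc : Com B) (κ : ℝ)
    (hcm : ∀ T : E2 G →L[ℂ] E2 G, B * T = T * B → D * T = T * D) (hDD : D * D' = 0)
    (hRR : R * R = D) (hD'sa : ContinuousLinearMap.adjoint D' = D')
    (hRsa : ContinuousLinearMap.adjoint R = R)
    (hBD : B = (κ : ℂ) • (1 : E2 G →L[ℂ] E2 G) + D - D')
    (K : Submodule ℂ (E2 G)) [K.HasOrthogonalProjection] (hK : RInv K)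
    (hle : ∀ f ∈ K, (⟪f, B f⟫_ℂ).re ≤ κ * ‖f‖ ^ 2) :
    kd K ≤ kd (LinearMap.ker (D : E2 G →ₗ[ℂ] E2 G)) := by
  have hcom : Com D := by
    intro g f
    have h2 := hcm (Rt g).toContinuousLinearMap (by ext1 x; exact hBc g x)
    exact congrArg (fun T : E2 G →L[ℂ] E2 G => T f) h2
  have hdis : ∀ f ∈ K, f ∈ (LinearMap.ker (D : E2 G →ₗ[ℂ] E2 G))ᗮ → f = 0 := by
    intro f hf hf2
    have hD'f : D' f = 0 := by
      refine ext_inner_right ℂ fun g => ?_
      rw [inner_zero_left, ← hD'sa, ContinuousLinearMap.adjoint_inner_left]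
      rw [Submodule.mem_orthogonal'] at hf2
      apply hf2
      rw [LinearMap.mem_ker]
      exact congrArg (fun T : E2 G →L[ℂ] E2 G => T g) hDD
    have h2 : B f = (κ : ℂ) • f + D f := by
      have h3 : B f = (κ : ℂ) • f + D f - D' f :=
        congrArg (fun T : E2 G →L[ℂ] E2 G => T f) hBD
      rw [h3, hD'f, sub_zero]
    have h4 : (⟪f, D f⟫_ℂ).re = ‖R f‖ ^ 2 := by
      rw [← hRR]
      have h5 : ⟪f, (R * R) f⟫_ℂ = ⟪R f, R f⟫_ℂ := by
        show ⟪f, R (R f)⟫_ℂ = ⟪R f, R f⟫_ℂ
        rw [← ContinuousLinearMap.adjoint_inner_left, hRsa]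
      rw [h5, inner_self_eq_norm_sq_to_K]
      norm_cast
    have h6 := hle f hf
    rw [h2, inner_add_right] at h6
    have h7 : (⟪f, (κ : ℂ) • f⟫_ℂ).re = κ * ‖f‖ ^ 2 := by
      rw [inner_smul_right, inner_self_eq_norm_sq_to_K]
      have h71 : ((κ : ℂ) * ((‖f‖ : ℂ)) ^ 2) = ((κ * ‖f‖ ^ 2 : ℝ) : ℂ) := by push_cast; ring
      erw [h71]
      exact Complex.ofReal_re _
    rw [Complex.add_re, h7, h4] at h6
    have h8 : ‖R f‖ ^ 2 ≤ 0 := by linarith
    have h9 : R f = 0 := by
      have : ‖R f‖ = 0 := by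
        have := sq_nonneg ‖R f‖
        exact (pow_eq_zero_iff (n := 2) (by norm_num)).1 (le_antisymm h8 this)
      exact norm_eq_zero.1 this
    have h10 : D f = 0 := by
      rw [← hRR]
      show R (R f) = 0
      rw [h9, map_zero]
    have h11 : f ∈ LinearMap.ker (D : E2 G →ₗ[ℂ] E2 G) := h10
    have h12 := Submodule.inner_right_of_mem_orthogonal h11 hf2
    exact inner_self_eq_zero.1 h12
  have h := kd_disj K (LinearMap.ker (D : E2 G →ₗ[ℂ] E2 G))ᗮ hK (RInv_orth (RInv_ker hcom)) hdis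
  rw [kd_orth] at h
  linarith

end H61R3NG
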