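import Pool.Agent.H61R3.KDH

set_option autoImplicit false

open scoped InnerProductSpace
open Filter Topology MeasureTheory Set

noncomputable section

namespace H61R3NG

lemma av_cos (n : ℤ) : av (fun θ => Real.cos (n * θ)) = if n = 0 then 1 else 0 := by
  unfold av
  have hpi := Real.pi_pos
  by_cases hn : n = 0
  · subst hn
    simp only [Int.cast_zero, zero_mul, Real.cos_zero, if_true, intervalIntegral.integral_const]
    rw [smul_eq_mul, mul_one]
    field_simp
    ring
  · rw [if_neg hn]
    have hn' : (n : ℝ) ≠ 0 := by exact_mod_cast hn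
    rw [intervalIntegral.integral_comp_mul_left _ hn', integral_cos]
    simp [Real.sin_int_mul_pi]

lemma set_eq (κ : ℝ) (θ : ℝ) (h0 : 0 ≤ θ) (hpi : θ ≤ Real.pi) (hne : θ ≠ Real.pi) :
    Real.cos θ ≤ κ ↔ Real.arccos κ ≤ θ := by
  have hlt : θ < Real.pi := lt_of_le_of_ne hpi hne
  rcases lt_or_ge κ (-1) with h | h
  · rw [Real.arccos_of_le_neg_one h.le]
    constructor
    · intro h2
      linarith [Real.neg_one_le_cos θ]
    · intro h2
      exact absurd h2 (not_le.2 hlt)
  · rcases le_or_gt κ 1 with h1 | h1
    · constructor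
      · intro h2
        have := Real.arccos_le_arccos h2
        rwa [Real.arccos_cos h0 hpi] at this
      · intro h2
        have h3 := Real.cos_le_cos_of_nonneg_of_le_pi (Real.arccos_nonneg κ) hpi h2
        rwa [Real.cos_arccos h h1] at h3
    · rw [Real.arccos_of_one_le h1.le]
      constructor
      · intro _; exact h0
      · intro _; exact (Real.cos_le_one θ).trans h1.le

lemma ii_congr (f g : ℝ → ℝ) (a b : ℝ) (hab : a ≤ b) (h : ∀ x ∈ Ioo a b, f x = g x) :
    ∫ x in a..b, f x = ∫ x in a..b, g x := by
  rw [intervalIntegral.integral_of_le hab, intervalIntegral.integral_of_le hab,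
    MeasureTheory.integral_Ioc_eq_integral_Ioo, MeasureTheory.integral_Ioc_eq_integral_Ioo]
  exact setIntegral_congr_fun measurableSet_Ioo h

/-- the limit of the averages -/
lemma lim_av (s r κ c : ℝ) (hr : 0 < r) (hc : 0 < c) (hc2 : c * (s + 2 * r + |κ|) ≤ 1)
    (hs : 0 ≤ s) :
    Tendsto (fun n : ℕ => av fun θ => (1 - c * max (s + 2 * r * Real.cos θ - κ) 0) ^ n) atTop
      (𝓝 (Real.arccos ((s - κ) / (2 * r)) / Real.pi)) := by
  have hpi := Real.pi_pos
  set F : ℕ → ℝ → ℝ := fun n θ => (1 - c * max (s + 2 * r * Real.cos θ - κ) 0) ^ n with hF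
  set g : ℝ → ℝ := fun θ => if s + 2 * r * Real.cos θ ≤ κ then 1 else 0 with hg
  have hrange : ∀ θ, 0 ≤ 1 - c * max (s + 2 * r * Real.cos θ - κ) 0 ∧
      1 - c * max (s + 2 * r * Real.cos θ - κ) 0 ≤ 1 := by
    intro θ
    have h2 : max (s + 2 * r * Real.cos θ - κ) 0 ≤ s + 2 * r + |κ| := by
      apply max_le
      · have := neg_abs_le κ
        have := Real.cos_le_one θ
        nlinarith
      · have := abs_nonneg κ
        positivity
    have h3 : 0 ≤ max (s + 2 * r * Real.cos θ - κ) 0 := le_max_right _ _
    have h4 : c * max (s + 2 * r * Real.cos θ - κ) 0 ≤ 1 :=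
      (mul_le_mul_of_nonneg_left h2 hc.le).trans hc2
    have h5 : 0 ≤ c * max (s + 2 * r * Real.cos θ - κ) 0 := mul_nonneg hc.le h3
    constructor <;> linarith
  have hlim : Tendsto (fun n : ℕ => ∫ θ in (-Real.pi)..Real.pi, F n θ) atTop
      (𝓝 (∫ θ in (-Real.pi)..Real.pi, g θ)) := by
    apply intervalIntegral.tendsto_integral_filter_of_dominated_convergence (fun _ => (1:ℝ))
    · refine Eventually.of_forall fun n => ?_
      have : Continuous (F n) := by
        simp only [hF]
        fun_prop
      exact this.aestronglyMeasurable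
    · refine Eventually.of_forall fun n => Eventually.of_forall fun θ _ => ?_
      obtain ⟨h1, h2⟩ := hrange θ
      simp only [hF]
      rw [Real.norm_of_nonneg (pow_nonneg h1 n)]
      exact pow_le_one₀ h1 h2
    · exact intervalIntegrable_const
    · refine Eventually.of_forall fun θ _ => ?_
      simp only [hF, hg]
      obtain ⟨h1, h2⟩ := hrange θ
      by_cases h : s + 2 * r * Real.cos θ ≤ κ
      · rw [if_pos h, max_eq_right (by linarith)]
        simp
      · rw [if_neg h]
        have h3 : 0 < max (s + 2 * r * Real.cos θ - κ) 0 := lt_max_of_lt_left (by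
          have := not_le.1 h
          linarith)
        have h4 : 0 < c * max (s + 2 * r * Real.cos θ - κ) 0 := mul_pos hc h3
        exact tendsto_pow_atTop_nhds_zero_of_lt_one h1 (by linarith)
  have hval : ∫ θ in (-Real.pi)..Real.pi, g θ = 2 * Real.arccos ((s - κ) / (2 * r)) := by
    set A := Real.arccos ((κ - s) / (2 * r)) with hA
    have hA0 : 0 ≤ A := Real.arccos_nonneg _
    have hA1 : A ≤ Real.pi := Real.arccos_le_pi _
    have hcond : ∀ θ, s + 2 * r * Real.cos θ ≤ κ ↔ Real.cos θ ≤ (κ - s) / (2 * r) := by
      intro θ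
      rw [le_div_iff₀ (by positivity)]
      constructor <;> intro h <;> linarith
    have hmeas : Measurable g := by
      simp only [hg]
      exact Measurable.ite (measurableSet_le (by fun_prop) measurable_const) measurable_const
        measurable_const
    have hint : ∀ a b : ℝ, IntervalIntegrable g volume a b := by
      intro a b
      refine (intervalIntegrable_const (c := (1:ℝ))).mono_fun hmeas.aestronglyMeasurable ?_
      refine Eventually.of_forall fun θ => ?_
      simp only [hg]
      split_ifs <;> simp
    have e1 : ∫ θ in (0:ℝ)..Real.pi, g θ = Real.pi - A := by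
      rw [← intervalIntegral.integral_add_adjacent_intervals (hint 0 A) (hint A Real.pi)]
      have f1 : ∫ θ in (0:ℝ)..A, g θ = 0 := by
        rw [ii_congr g (fun _ => 0) 0 A hA0]
        · simp
        · intro θ hθ
          simp only [hg]
          rw [if_neg]
          rw [hcond, set_eq _ θ hθ.1.le (hθ.2.le.trans hA1) (by
            have := hθ.2; intro h; rw [h] at this; linarith)]
          exact not_le.2 hθ.2
      have f2 : ∫ θ in A..Real.pi, g θ = Real.pi - A := by
        rw [ii_congr g (fun _ => 1) A Real.pi hA1]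
        · simp
        · intro θ hθ
          simp only [hg]
          rw [if_pos]
          rw [hcond, set_eq _ θ (hA0.trans hθ.1.le) hθ.2.le hθ.2.ne]
          exact hθ.1.le
      rw [f1, f2, zero_add]
    have e2 : ∫ θ in (-Real.pi)..0, g θ = Real.pi - A := by
      have h1 := intervalIntegral.integral_comp_neg (f := g) (a := 0) (b := Real.pi)
      rw [neg_zero] at h1
      rw [← h1, ← e1]
      refine intervalIntegral.integral_congr fun θ _ => ?_
      simp only [hg, Real.cos_neg]
    rw [← intervalIntegral.integral_add_adjacent_intervals (hint (-Real.pi) 0) (hint 0 Real.pi),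
      e1, e2]
    have e3 : Real.arccos ((s - κ) / (2 * r)) = Real.pi - A := by
      rw [hA, show (s - κ) / (2 * r) = -((κ - s) / (2 * r)) by ring, Real.arccos_neg]
    rw [e3]
    ring
  have : Real.arccos ((s - κ) / (2 * r)) / Real.pi
      = (2 * Real.pi)⁻¹ * ∫ θ in (-Real.pi)..Real.pi, g θ := by
    rw [hval]
    field_simp
  rw [this]
  unfold av
  exact hlim.const_mul _

end H61R3NG
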