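import Pool.Agent.H61R3.KD3
import Pool.Agent.H61R3.KD5

set_option autoImplicit false
set_option linter.unusedSectionVars false

open scoped ENNReal InnerProductSpace
open Filter Topology

noncomputable section

namespace H61R3NG

variable {G : Type*} [Group G]

/-- twisted powers -/
def U (h : G) (ω : ℂ) (n : ℤ) : E2 G →L[ℂ] E2 G := (ω ^ n) • Lhom G (h ^ n)

lemma U_mul (h : G) (ω : ℂ) (hω : ω ≠ 0) (m n : ℤ) : U h ω m * U h ω n = U h ω (m + n) := by
  unfold U
  rw [smul_mul_smul_comm, ← map_mul, ← zpow_add, ← zpow_add₀ hω]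

lemma trc_U (h : G) (hh : ¬ IsOfFinOrder h) (ω : ℂ) (n : ℤ) :
    trc (U h ω n) = ((if n = 0 then (1:ℝ) else 0 : ℝ) : ℂ) := by
  have h1 : U h ω n (dl 1) = (ω ^ n) • Lt (h ^ n) (dl 1) := rfl
  unfold trc
  rw [h1, inner_smul_right, Lt_dl, mul_one, inner_dl_left, dl_apply]
  by_cases hn : n = 0
  · subst hn; simp
  · rw [if_neg hn, if_neg]
    · simp
    · intro h2
      apply hh
      rw [isOfFinOrder_iff_zpow_eq_one]
      exact ⟨n, hn, h2.symm⟩

lemma trc_smul (c : ℂ) (S : E2 G →L[ℂ] E2 G) : trc (c • S) = c * trc S := by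
  unfold trc
  have : (c • S) (dl (1:G)) = c • S (dl 1) := rfl
  rw [this, inner_smul_right]

lemma av_lin (f g1 g2 g3 : ℝ → ℝ) (s r : ℝ) (hf : Continuous f) (h1 : Continuous g1)
    (h2 : Continuous g2) (h3 : Continuous g3) :
    av (fun θ => f θ * (s * g1 θ + r * (g2 θ + g3 θ)))
      = s * av (fun θ => f θ * g1 θ) + r * (av (fun θ => f θ * g2 θ)
        + av (fun θ => f θ * g3 θ)) := by
  unfold av
  have e : (fun θ => f θ * (s * g1 θ + r * (g2 θ + g3 θ)))
      = fun θ => s * (f θ * g1 θ) + (r * (f θ * g2 θ) + r * (f θ * g3 θ)) := by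
    funext θ; ring
  rw [e, intervalIntegral.integral_add, intervalIntegral.integral_add,
    intervalIntegral.integral_const_mul, intervalIntegral.integral_const_mul,
    intervalIntegral.integral_const_mul]
  · ring
  all_goals exact Continuous.intervalIntegrable (by fun_prop) _ _

lemma mom (h : G) (hh : ¬ IsOfFinOrder h) (ω : ℂ) (hω : ω ≠ 0) (s r : ℝ)
    (B : E2 G →L[ℂ] E2 G)
    (hB : B = (s : ℂ) • (1 : E2 G →L[ℂ] E2 G) + (r : ℂ) • (U h ω 1 + U h ω (-1)))
    (k : ℕ) : ∀ n : ℤ, trc (B ^ k * U h ω n)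
      = ((av fun θ => (s + 2 * r * Real.cos θ) ^ k * Real.cos (n * θ) : ℝ) : ℂ) := by
  induction k with
  | zero =>
    intro n
    simp only [pow_zero, one_mul]
    rw [trc_U h hh, av_cos]
  | succ k ih =>
    intro n
    have h1 : B * U h ω n = (s : ℂ) • U h ω n + (r : ℂ) • (U h ω (1 + n) + U h ω (-1 + n)) := by
      rw [hB, add_mul, smul_mul_assoc, smul_mul_assoc, one_mul, add_mul, U_mul h ω hω,
        U_mul h ω hω]
    rw [pow_succ, mul_assoc, h1, mul_add, mul_smul_comm, mul_smul_comm, mul_add, trc_add,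
      trc_smul, trc_smul, trc_add, ih, ih, ih]
    have h2 : (fun θ => (s + 2 * r * Real.cos θ) ^ (k + 1) * Real.cos (n * θ))
        = fun θ => (s + 2 * r * Real.cos θ) ^ k * (s * Real.cos (n * θ)
          + r * (Real.cos (((1 + n : ℤ) : ℝ) * θ) + Real.cos (((-1 + n : ℤ) : ℝ) * θ))) := by
      funext θ
      push_cast
      rw [add_mul, add_mul, one_mul, neg_one_mul, Real.cos_add, Real.cos_add, Real.cos_neg,
        Real.sin_neg]
      ring
    rw [h2, av_lin (fun θ => (s + 2 * r * Real.cos θ) ^ k) (fun θ => Real.cos (n * θ))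
      (fun θ => Real.cos (((1 + n : ℤ) : ℝ) * θ)) (fun θ => Real.cos (((-1 + n : ℤ) : ℝ) * θ)) s r
      (by fun_prop) (by fun_prop) (by fun_prop) (by fun_prop)]
    push_cast
    ring

lemma adj_L (h : G) : ContinuousLinearMap.adjoint (Lhom G h) = Lhom G h⁻¹ := by
  symm
  rw [ContinuousLinearMap.eq_adjoint_iff]
  intro x y
  show ⟪Lt h⁻¹ x, y⟫_ℂ = ⟪x, Lt h y⟫_ℂ
  rw [← LinearIsometry.inner_map_map (Lt h) (Lt h⁻¹ x) y]
  congr 1
  apply lp.ext
  funext z
  simp

lemma norm_L (h : G) : ‖Lhom G h‖ ≤ 1 := LinearIsometry.norm_toContinuousLinearMap_le _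

lemma Com_L (h : G) : Com (Lhom G h) := fun g f => Lt_Rt h g f

set_option maxHeartbeats 4000000 in
/-- The dimension bound. -/
theorem main (α : MonoidAlgebra ℂ G) (x y : G) (hxy : ¬ IsOfFinOrder (x⁻¹ * y))
    (hx : α.coeff x ≠ 0) (hy : α.coeff y ≠ 0) (c : ℝ)
    (hc : c = ∑ z ∈ α.coeff.support, ‖α.coeff z‖ - ‖α.coeff x‖ - ‖α.coeff y‖) :
    kd (LinearMap.ker (Top G α : E2 G →ₗ[ℂ] E2 G))
      ≤ Real.arccos ((‖α.coeff x‖ ^ 2 + ‖α.coeff y‖ ^ 2 - c ^ 2)
        / (2 * (‖α.coeff x‖ * ‖α.coeff y‖))) / Real.pi := by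
  classical
  set a := α.coeff x with ha
  set b := α.coeff y with hb
  set h := x⁻¹ * y with hh
  set s : ℝ := ‖a‖ ^ 2 + ‖b‖ ^ 2 with hs
  set r : ℝ := ‖a‖ * ‖b‖ with hr
  have ha0 : 0 < ‖a‖ := norm_pos_iff.2 hx
  have hb0 : 0 < ‖b‖ := norm_pos_iff.2 hy
  have hr0 : 0 < r := mul_pos ha0 hb0
  have hrc : (r : ℂ) ≠ 0 := by exact_mod_cast hr0.ne'
  have hs0 : 0 ≤ s := by positivity
  set ω : ℂ := (starRingEnd ℂ) a * b / r with hω
  have hca : (starRingEnd ℂ) a ≠ 0 := (map_ne_zero _).2 hx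
  have hcb : (starRingEnd ℂ) b ≠ 0 := (map_ne_zero _).2 hy
  have hω0 : ω ≠ 0 := div_ne_zero (mul_ne_zero hca hy) hrc
  have haa : (starRingEnd ℂ) a * a = ((‖a‖ : ℂ)) ^ 2 := Complex.conj_mul' a
  have hbb : (starRingEnd ℂ) b * b = ((‖b‖ : ℂ)) ^ 2 := Complex.conj_mul' b
  have hω2 : (r : ℂ) * ω⁻¹ = a * (starRingEnd ℂ) b := by
    rw [hω, inv_div]
    rw [mul_div_assoc', div_eq_iff (mul_ne_zero hca hy)]
    have : a * (starRingEnd ℂ) b * ((starRingEnd ℂ) a * b)
        = ((starRingEnd ℂ) a * a) * ((starRingEnd ℂ) b * b) := by ring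
    rw [this, haa, hbb, hr]
    push_cast
    ring
  have hω1 : (r : ℂ) * ω = (starRingEnd ℂ) a * b := by
    rw [hω]
    field_simp
  set S : E2 G →L[ℂ] E2 G := a • (1 : E2 G →L[ℂ] E2 G) + b • Lhom G h with hS
  set B : E2 G →L[ℂ] E2 G := ContinuousLinearMap.adjoint S * S with hB
  have hSadj : ContinuousLinearMap.adjoint S
      = (starRingEnd ℂ) a • (1 : E2 G →L[ℂ] E2 G) + (starRingEnd ℂ) b • Lhom G h⁻¹ := by
    rw [hS, map_add, ContinuousLinearMap.adjoint.map_smulₛₗ, ContinuousLinearMap.adjoint.map_smulₛₗ,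
      adj_L]
    congr 2
    exact ContinuousLinearMap.adjoint_id
  have hBf : B = (s : ℂ) • (1 : E2 G →L[ℂ] E2 G) + (r : ℂ) • (U h ω 1 + U h ω (-1)) := by
    rw [hB, hSadj, hS]
    unfold U
    simp only [zpow_one, zpow_neg_one]
    rw [smul_add, smul_smul, smul_smul, hω1, hω2]
    have e1 : Lhom G h⁻¹ * Lhom G h = 1 := by
      rw [← map_mul, inv_mul_cancel, map_one]
    rw [add_mul, mul_add, mul_add]
    simp only [smul_mul_smul_comm, one_mul, mul_one, e1]
    rw [haa, hbb]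
    have e2 : (s : ℂ) = (‖a‖ : ℂ) ^ 2 + (‖b‖ : ℂ) ^ 2 := by
      rw [hs]; push_cast; ring
    rw [e2, add_smul, mul_comm a]
    abel
  have hScom : Com S := (Com.one.smul a).add ((Com_L h).smul b)
  have hBcom : Com B := hScom.adjoint.mul hScom
  have hBsa : IsSelfAdjoint B := by
    rw [hB]
    exact IsSelfAdjoint.star_mul_self S
  have hBnorm : ‖B‖ ≤ s + 2 * r := by
    have h1 : ‖S‖ ≤ ‖a‖ + ‖b‖ := by
      rw [hS]
      refine (norm_add_le _ _).trans ?_
      have e1 : ‖a • (1 : E2 G →L[ℂ] E2 G)‖ ≤ ‖a‖ := by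
        rw [norm_smul]
        exact mul_le_of_le_one_right (norm_nonneg _) (ContinuousLinearMap.norm_id_le)
      have e2 : ‖b • Lhom G h‖ ≤ ‖b‖ := by
        rw [norm_smul]
        exact mul_le_of_le_one_right (norm_nonneg _) (norm_L h)
      linarith
    have h2 : ‖B‖ ≤ ‖S‖ * ‖S‖ := by
      rw [hB]
      refine (norm_mul_le _ _).trans ?_
      rw [LinearIsometryEquiv.norm_map]
    have h3 : ‖S‖ * ‖S‖ ≤ (‖a‖ + ‖b‖) * (‖a‖ + ‖b‖) :=
      mul_le_mul h1 h1 (norm_nonneg _) (by positivity)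
    calc ‖B‖ ≤ (‖a‖ + ‖b‖) * (‖a‖ + ‖b‖) := h2.trans h3
      _ = s + 2 * r := by rw [hs, hr]; ring
  set κ : ℝ := c ^ 2 with hκ
  have hκ0 : 0 ≤ κ := sq_nonneg c
  set M : ℝ := s + 2 * r with hM
  have hMκ : 0 < M + |κ| := by positivity
  set c' : ℝ := 1 / (M + |κ|) with hc'
  have hc'0 : 0 < c' := by positivity
  have hc'1 : c' * (M + |κ|) ≤ 1 := by
    rw [hc', one_div, inv_mul_cancel₀ hMκ.ne']
  obtain ⟨D, D', R, hcm, hDD, hRR, hD', hR, hBD, hnorm, hmom⟩ :=
    pack B hBsa κ M c' hBnorm hc'0.le hc'1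
  set K := LinearMap.ker (Top G α : E2 G →ₗ[ℂ] E2 G) with hK
  have hKinv : RInv K := RInv_ker (Com_Top α)
  have hxny : x ≠ y := by
    intro hxe
    apply hxy
    rw [hh, hxe, inv_mul_cancel]
    exact IsOfFinOrder.one
  have hle : ∀ f ∈ K, (⟪f, B f⟫_ℂ).re ≤ κ * ‖f‖ ^ 2 := by
    intro f hf
    have e1 : ⟪f, B f⟫_ℂ = ⟪S f, S f⟫_ℂ := by
      show ⟪f, ContinuousLinearMap.adjoint S (S f)⟫_ℂ = _
      rw [ContinuousLinearMap.adjoint_inner_right]
    have e2 : (⟪f, B f⟫_ℂ).re = ‖S f‖ ^ 2 := by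
      rw [e1, inner_self_eq_norm_sq_to_K]
      norm_cast
    have e3 : Top G α f = 0 := hf
    rw [Top_apply] at e3
    have hxs : x ∈ α.coeff.support := Finsupp.mem_support_iff.2 hx
    have hys : y ∈ α.coeff.support.erase x :=
      Finset.mem_erase.2 ⟨hxny.symm, Finsupp.mem_support_iff.2 hy⟩
    rw [← Finset.add_sum_erase _ _ hxs, ← Finset.add_sum_erase _ _ hys] at e3
    have e4 : ∑ z ∈ (α.coeff.support.erase x).erase y, ‖α.coeff z‖ = c := by
      rw [hc, ← Finset.add_sum_erase _ _ hxs, ← Finset.add_sum_erase _ _ hys]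
      ring
    have e5 : Lt x (S f) = a • Lt x f + b • Lt y f := by
      have : S f = a • f + b • Lt h f := rfl
      rw [this, map_add, map_smul, map_smul]
      congr 2
      apply lp.ext
      funext z
      simp [hh, mul_assoc]
    have e6 : ‖S f‖ ≤ c * ‖f‖ := by
      rw [← LinearIsometry.norm_map (Lt x), e5]
      have e7 : a • Lt x f + b • Lt y f
          = -∑ z ∈ (α.coeff.support.erase x).erase y, α.coeff z • Lt z f := by
        rw [eq_neg_iff_add_eq_zero, add_assoc]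
        exact e3
      rw [e7, norm_neg]
      refine (norm_sum_le _ _).trans ?_
      refine le_of_eq ?_
      rw [← e4, Finset.sum_mul]
      refine Finset.sum_congr rfl fun z _ => ?_
      rw [norm_smul, LinearIsometry.norm_map]
    rw [e2, hκ, ← mul_pow]
    exact pow_le_pow_left₀ (norm_nonneg _) e6 2
  have step1 := cfc_part B D D' R hBcom κ hcm hDD hRR hD' hR hBD K hKinv hle
  refine step1.trans (le_of_eq ?_)
  -- compute the dimension of the kernel of D
  have hcc : (c' : ℂ) ≠ 0 := by exact_mod_cast hc'0.ne'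
  have herg := erg (1 - (c' : ℂ) • D) hnorm (LinearMap.ker (D : E2 G →ₗ[ℂ] E2 G)) (by
    intro f
    rw [LinearMap.mem_ker]
    have h1 : (1 - (c' : ℂ) • D : E2 G →L[ℂ] E2 G) f = f - (c' : ℂ) • D f := rfl
    rw [h1, sub_eq_self, smul_eq_zero, or_iff_right hcc]
    rfl)
  have hmom2 := hmom (dl (1:G)) (fun θ => s + 2 * r * Real.cos θ) (by fun_prop) (by
      intro θ
      have h1 := Real.cos_le_one θ
      have h2 := Real.neg_one_le_cos θ
      have h3 : 2 * r ≤ s := by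
        rw [hs, hr]; nlinarith [sq_nonneg (‖a‖ - ‖b‖)]
      rw [abs_le, hM]
      constructor <;> nlinarith) (by
      intro k
      have h1 := mom h hxy ω hω0 s r B hBf k 0
      have h2 : U h ω 0 = (1 : E2 G →L[ℂ] E2 G) := by
        unfold U
        simp
      rw [h2, mul_one] at h1
      simp only [Int.cast_zero, zero_mul, Real.cos_zero, mul_one] at h1
      exact h1)
  have herg2 : Tendsto (fun N : ℕ => (N : ℝ)⁻¹ * ∑ n ∈ Finset.range N,
      av (fun θ => (1 - c' * max (s + 2 * r * Real.cos θ - κ) 0) ^ n)) atTop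
      (𝓝 (kd (LinearMap.ker (D : E2 G →ₗ[ℂ] E2 G)))) := by
    have h1 : ∀ N : ℕ, (N : ℂ)⁻¹ * ∑ n ∈ Finset.range N, trc ((1 - (c' : ℂ) • D) ^ n)
        = (((N : ℝ)⁻¹ * ∑ n ∈ Finset.range N,
          av (fun θ => (1 - c' * max (s + 2 * r * Real.cos θ - κ) 0) ^ n) : ℝ) : ℂ) := by
      intro N
      push_cast
      congr 1
      refine Finset.sum_congr rfl fun n _ => ?_
      exact hmom2 n
    simp only [h1] at herg
    have h2 := (Complex.continuous_re.tendsto _).comp herg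
    simpa [Function.comp_def] using h2
  have hlim := (lim_av s r κ c' hr0 hc'0 hc'1 hs0).cesaro
  exact tendsto_nhds_unique herg2 hlim

end H61R3NG
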