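import Mathlib

set_option autoImplicit false

open scoped InnerProductSpace
open Filter Topology MeasureTheory

noncomputable section

namespace H61R3NG

variable {H : Type*} [NormedAddCommGroup H] [InnerProductSpace ℂ H] [CompleteSpace H]

/-- average over the circle -/
def av (f : ℝ → ℝ) : ℝ := (2 * Real.pi)⁻¹ * ∫ θ in (-Real.pi)..Real.pi, f θ

lemma av_poly (v : H) (B : H →L[ℂ] H) (b : ℝ → ℝ) (hb : Continuous b)
    (hmom : ∀ k : ℕ, ⟪v, (B ^ k) v⟫_ℂ = ((av fun θ => b θ ^ k : ℝ) : ℂ)) (p : Polynomial ℝ) :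
    ⟪v, (Polynomial.aeval B p) v⟫_ℂ = ((av fun θ => p.eval (b θ) : ℝ) : ℂ) := by
  induction p using Polynomial.induction_on' with
  | add p q hp hq =>
    rw [map_add, ContinuousLinearMap.add_apply, inner_add_right, hp, hq]
    have : av (fun θ => (p + q).eval (b θ)) = av (fun θ => p.eval (b θ))
        + av (fun θ => q.eval (b θ)) := by
      unfold av
      simp only [Polynomial.eval_add]
      rw [intervalIntegral.integral_add, mul_add]
      · exact ((p.continuous.comp hb).intervalIntegrable _ _)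
      · exact ((q.continuous.comp hb).intervalIntegrable _ _)
    rw [this]
    push_cast
    ring
  | monomial n a =>
    rw [Polynomial.aeval_monomial]
    have h1 : (algebraMap ℝ (H →L[ℂ] H) a * B ^ n) v = (a : ℂ) • (B ^ n) v := rfl
    rw [h1, inner_smul_right, hmom]
    have : av (fun θ => (Polynomial.monomial n a).eval (b θ)) = a * av (fun θ => b θ ^ n) := by
      unfold av
      simp only [Polynomial.eval_monomial]
      rw [intervalIntegral.integral_const_mul]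
      ring
    rw [this]
    push_cast
    ring

lemma av_sub_le (f g : ℝ → ℝ) (hf : Continuous f) (hg : Continuous g) (ε : ℝ)
    (h : ∀ θ, |f θ - g θ| ≤ ε) : |av f - av g| ≤ ε := by
  unfold av
  have hpi := Real.pi_pos
  rw [← mul_sub, ← intervalIntegral.integral_sub (hf.intervalIntegrable _ _)
    (hg.intervalIntegrable _ _), abs_mul, abs_of_pos (by positivity : 0 < (2 * Real.pi)⁻¹)]
  have h2 : ‖∫ θ in (-Real.pi)..Real.pi, (f θ - g θ)‖ ≤ ε * |Real.pi - -Real.pi| :=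
    intervalIntegral.norm_integral_le_of_norm_le_const (fun θ _ => h θ)
  rw [Real.norm_eq_abs, show Real.pi - -Real.pi = 2 * Real.pi by ring,
    abs_of_pos (by positivity : 0 < 2 * Real.pi)] at h2
  rw [inv_mul_le_iff₀ (by positivity)]
  linarith

lemma av_cont (v : H) (B : H →L[ℂ] H) (hB : IsSelfAdjoint B) (M : ℝ) (hM : ‖B‖ ≤ M)
    (b : ℝ → ℝ) (hb : Continuous b) (hbM : ∀ θ, |b θ| ≤ M)
    (hmom : ∀ k : ℕ, ⟪v, (B ^ k) v⟫_ℂ = ((av fun θ => b θ ^ k : ℝ) : ℂ)) (ψ : ℝ → ℝ)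
    (hψ : Continuous ψ) :
    ⟪v, (cfc ψ B) v⟫_ℂ = ((av fun θ => ψ (b θ) : ℝ) : ℂ) := by
  have key : ∀ ε : ℝ, 0 < ε →
      ‖⟪v, (cfc ψ B) v⟫_ℂ - ((av fun θ => ψ (b θ) : ℝ) : ℂ)‖ ≤ ε * (‖v‖ ^ 2 + 1) := by
    intro ε hε
    obtain ⟨p, hp⟩ := exists_polynomial_near_of_continuousOn (-M) M ψ hψ.continuousOn ε hε
    have hspec : ∀ x ∈ spectrum ℝ B, x ∈ Set.Icc (-M) M := by
      intro x hx
      have h1 : ‖x‖ ≤ ‖B‖ := by
        have h2 := norm_apply_le_norm_cfc (fun x : ℝ => x) B hx (by fun_prop) hB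
        rwa [cfc_id' ℝ B hB] at h2
      rw [Set.mem_Icc, ← abs_le]
      exact h1.trans hM
    have h3 : cfc p.eval B = Polynomial.aeval B p := cfc_polynomial p B hB
    have h4 : ‖cfc p.eval B - cfc ψ B‖ ≤ ε := by
      rw [← cfc_sub _ _ B (p.continuous.continuousOn) hψ.continuousOn]
      refine norm_cfc_le hε.le fun x hx => ?_
      exact (hp x (hspec x hx)).le
    have h5 : ⟪v, (cfc p.eval B) v⟫_ℂ = ((av fun θ => p.eval (b θ) : ℝ) : ℂ) := by
      rw [h3]
      exact av_poly v B b hb hmom p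
    have h6 : ‖⟪v, (cfc ψ B) v⟫_ℂ - ⟪v, (cfc p.eval B) v⟫_ℂ‖ ≤ ε * ‖v‖ ^ 2 := by
      rw [← inner_sub_right, ← ContinuousLinearMap.sub_apply]
      refine (norm_inner_le_norm _ _).trans ?_
      have h7 := (cfc ψ B - cfc p.eval B).le_opNorm v
      rw [norm_sub_rev] at h4
      calc ‖v‖ * ‖(cfc ψ B - cfc p.eval B) v‖ ≤ ‖v‖ * (ε * ‖v‖) := by
            gcongr
            exact h7.trans (by gcongr)
        _ = ε * ‖v‖ ^ 2 := by ring
    have h8 : ‖((av fun θ => p.eval (b θ) : ℝ) : ℂ) - ((av fun θ => ψ (b θ) : ℝ) : ℂ)‖ ≤ ε := by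
      rw [← Complex.ofReal_sub, Complex.norm_real]
      refine av_sub_le _ _ (p.continuous.comp hb) (hψ.comp hb) ε fun θ => ?_
      exact (hp _ (by rw [Set.mem_Icc, ← abs_le]; exact hbM θ)).le
    have h9 : ⟪v, (cfc ψ B) v⟫_ℂ - ((av fun θ => ψ (b θ) : ℝ) : ℂ)
        = (⟪v, (cfc ψ B) v⟫_ℂ - ⟪v, (cfc p.eval B) v⟫_ℂ)
          + (((av fun θ => p.eval (b θ) : ℝ) : ℂ) - ((av fun θ => ψ (b θ) : ℝ) : ℂ)) := by
      rw [h5]; ring
    rw [h9]
    refine (norm_add_le _ _).trans ?_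
    linarith
  rw [← sub_eq_zero, ← norm_le_zero_iff]
  refine le_of_forall_pos_le_add fun δ hδ => ?_
  have hp : 0 < ‖v‖ ^ 2 + 1 := by positivity
  have := key (δ / (‖v‖ ^ 2 + 1)) (by positivity)
  rw [div_mul_cancel₀ _ hp.ne'] at this
  linarith

/-- all facts from the continuous functional calculus that are needed -/
lemma pack (B : H →L[ℂ] H) (hB : IsSelfAdjoint B) (κ M c : ℝ) (hM : ‖B‖ ≤ M) (hc : 0 ≤ c)
    (hc2 : c * (M + |κ|) ≤ 1) :
    ∃ D D' R : H →L[ℂ] H, (∀ T : H →L[ℂ] H, B * T = T * B → D * T = T * D) ∧ D * D' = 0 ∧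
      R * R = D ∧ ContinuousLinearMap.adjoint D' = D' ∧ ContinuousLinearMap.adjoint R = R ∧
      B = (κ : ℂ) • (1 : H →L[ℂ] H) + D - D' ∧ ‖1 - (c : ℂ) • D‖ ≤ 1 ∧
      ∀ (v : H) (b : ℝ → ℝ), Continuous b → (∀ θ, |b θ| ≤ M) →
        (∀ k : ℕ, ⟪v, (B ^ k) v⟫_ℂ = ((av fun θ => b θ ^ k : ℝ) : ℂ)) →
        ∀ n : ℕ, ⟪v, ((1 - (c : ℂ) • D) ^ n) v⟫_ℂ
          = ((av fun θ => (1 - c * max (b θ - κ) 0) ^ n : ℝ) : ℂ) := by
  have c1 : ContinuousOn (fun x : ℝ => max (x - κ) 0) (spectrum ℝ B) := by fun_prop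
  have c2 : ContinuousOn (fun x : ℝ => max (κ - x) 0) (spectrum ℝ B) := by fun_prop
  have c3 : ContinuousOn (fun x : ℝ => Real.sqrt (max (x - κ) 0)) (spectrum ℝ B) := by fun_prop
  have hspec : ∀ x ∈ spectrum ℝ B, |x| ≤ M := by
    intro x hx
    have h1 : ‖x‖ ≤ ‖B‖ := by
      have h2 := norm_apply_le_norm_cfc (fun x : ℝ => x) B hx (by fun_prop) hB
      rwa [cfc_id' ℝ B hB] at h2
    exact h1.trans hM
  have hC : (1 - (c : ℂ) • cfc (fun x : ℝ => max (x - κ) 0) B : H →L[ℂ] H)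
      = cfc (fun x : ℝ => 1 - c * max (x - κ) 0) B := by
    have h1 := cfc_sub (fun _ : ℝ => (1:ℝ)) (fun x : ℝ => c * max (x - κ) 0) B (by fun_prop)
      (by fun_prop)
    rw [h1, cfc_const_mul c _ B c1, cfc_const_one ℝ B hB]
    rfl
  refine ⟨cfc (fun x : ℝ => max (x - κ) 0) B, cfc (fun x : ℝ => max (κ - x) 0) B,
    cfc (fun x : ℝ => Real.sqrt (max (x - κ) 0)) B, ?_, ?_, ?_, ?_, ?_, ?_, ?_, ?_⟩
  · intro T hT
    have h1 : Commute B T := hT
    exact (h1.cfc_real (fun x : ℝ => max (x - κ) 0)).eq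
  · rw [← cfc_mul _ _ B c1 c2]
    have : (fun x : ℝ => max (x - κ) 0 * max (κ - x) 0) = fun _ => (0:ℝ) := by
      funext x
      rcases le_total x κ with h | h
      · rw [max_eq_right (by linarith : x - κ ≤ 0), zero_mul]
      · rw [max_eq_right (by linarith : κ - x ≤ 0), mul_zero]
    rw [this, cfc_const_zero]
  · rw [← cfc_mul _ _ B c3 c3]
    congr 1
    funext x
    exact Real.mul_self_sqrt (le_max_right _ _)
  · exact (cfc_predicate (fun x : ℝ => max (κ - x) 0) B : IsSelfAdjoint _)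
  · exact (cfc_predicate (fun x : ℝ => Real.sqrt (max (x - κ) 0)) B : IsSelfAdjoint _)
  · have h1 : ((κ : ℂ) • (1 : H →L[ℂ] H)) = algebraMap ℝ (H →L[ℂ] H) κ := rfl
    rw [h1, ← cfc_const κ B hB, ← cfc_add _ _ _ (by fun_prop) c1,
      ← cfc_sub _ _ _ (by fun_prop) c2]
    conv_lhs => rw [← cfc_id' ℝ B hB]
    congr 1
    funext x
    rcases le_total x κ with h | h
    · rw [max_eq_right (by linarith : x - κ ≤ 0), max_eq_left (by linarith : 0 ≤ κ - x)]
      ring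
    · rw [max_eq_left (by linarith : 0 ≤ x - κ), max_eq_right (by linarith : κ - x ≤ 0)]
      ring
  · rw [hC]
    refine norm_cfc_le zero_le_one fun x hx => ?_
    have h1 := hspec x hx
    have h2 : max (x - κ) 0 ≤ M + |κ| := by
      apply max_le
      · have := abs_le.1 h1
        have := neg_abs_le κ
        linarith
      · have := abs_nonneg x
        have := abs_nonneg κ
        linarith
    have h3 : 0 ≤ max (x - κ) 0 := le_max_right _ _
    have h4 : c * max (x - κ) 0 ≤ 1 := (mul_le_mul_of_nonneg_left h2 hc).trans hc2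
    have h5 : 0 ≤ c * max (x - κ) 0 := mul_nonneg hc h3
    rw [Real.norm_eq_abs, abs_le]
    constructor <;> linarith
  · intro v b hb hbM hmom n
    rw [hC, ← cfc_pow (fun x : ℝ => 1 - c * max (x - κ) 0) n B (by fun_prop) hB]
    exact av_cont v B hB M hM b hb hbM hmom (fun x => (1 - c * max (x - κ) 0) ^ n) (by fun_prop)

end H61R3NG
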