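import Mathlib

set_option autoImplicit false
set_option linter.unusedSectionVars false

open scoped ENNReal InnerProductSpace

noncomputable section

namespace H61R3NG

/-- The Hilbert space of square-summable complex functions on `G`. -/
abbrev E2 (G : Type*) := lp (fun _ : G => ℂ) 2

section perm

variable {G : Type*}

/-- Composition with a permutation of the index set. -/
def perm (σ : G ≃ G) : E2 G →ₗᵢ[ℂ] E2 G where
  toFun f := ⟨fun x => f (σ x), by
    have h := lp.memℓp f
    rw [memℓp_gen_iff (by norm_num)] at h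
    exact memℓp_gen ((σ.summable_iff (f := fun x => ‖f x‖ ^ (2:ℝ≥0∞).toReal)).2 h)⟩
  map_add' f g := by
    apply lp.ext
    funext x
    rfl
  map_smul' c f := by
    apply lp.ext
    funext x
    rfl
  norm_map' f := by
    show ‖(⟨fun x => f (σ x), _⟩ : E2 G)‖ = ‖f‖
    rw [lp.norm_eq_tsum_rpow (by norm_num), lp.norm_eq_tsum_rpow (by norm_num)]
    congr 1
    exact σ.tsum_eq (fun x => ‖f x‖ ^ (2:ℝ≥0∞).toReal)

@[simp] lemma perm_apply (σ : G ≃ G) (f : E2 G) (x : G) : perm σ f x = f (σ x) := rfl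

end perm

variable {G : Type*} [Group G]

/-- Left translation. -/
def Lt (x : G) : E2 G →ₗᵢ[ℂ] E2 G := perm (Equiv.mulLeft x⁻¹)

/-- Right translation. -/
def Rt (g : G) : E2 G →ₗᵢ[ℂ] E2 G := perm (Equiv.mulRight g)

@[simp] lemma Lt_apply (x : G) (f : E2 G) (y : G) : Lt x f y = f (x⁻¹ * y) := rfl
@[simp] lemma Rt_apply (g : G) (f : E2 G) (y : G) : Rt g f y = f (y * g) := rfl

lemma Lt_Rt (x g : G) (f : E2 G) : Lt x (Rt g f) = Rt g (Lt x f) := by
  apply lp.ext
  funext y
  simp [mul_assoc]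

lemma Rt_Rt (g h : G) (f : E2 G) : Rt g (Rt h f) = Rt (g * h) f := by
  apply lp.ext
  funext y
  simp [mul_assoc]

lemma Rt_one (f : E2 G) : Rt (1 : G) f = f := by
  apply lp.ext
  funext y
  simp

open Classical in
/-- The basis vector at `x`. -/
def dl (x : G) : E2 G := lp.single 2 x (1 : ℂ)

open Classical in
lemma dl_apply (x y : G) : dl x y = if y = x then 1 else 0 := by
  unfold dl
  rw [lp.single_apply]
  split_ifs with h
  · subst h; simp
  · simp [h]

lemma inner_dl_left (x : G) (f : E2 G) : ⟪dl x, f⟫_ℂ = f x := by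
  classical
  unfold dl
  have := lp.inner_single_left (𝕜 := ℂ) (G := fun _ : G => ℂ) x (1:ℂ) f
  rw [show (fun a b => Classical.propDecidable (a = b)) = (inferInstance : DecidableEq G) from
    Subsingleton.elim _ _]
  rw [this]
  simp

lemma inner_dl_right (x : G) (f : E2 G) : ⟪f, dl x⟫_ℂ = (starRingEnd ℂ) (f x) := by
  rw [← inner_conj_symm, inner_dl_left]

lemma Rt_dl (g x : G) : Rt g (dl x) = dl (x * g⁻¹) := by
  apply lp.ext
  funext y
  rw [Rt_apply, dl_apply, dl_apply]
  have : (y * g = x) ↔ (y = x * g⁻¹) := eq_mul_inv_iff_mul_eq.symm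
  by_cases h : y * g = x
  · rw [if_pos h, if_pos (this.1 h)]
  · rw [if_neg h, if_neg (fun h' => h (this.2 h'))]

lemma Lt_dl (g x : G) : Lt g (dl x) = dl (g * x) := by
  apply lp.ext
  funext y
  rw [Lt_apply, dl_apply, dl_apply]
  have : (g⁻¹ * y = x) ↔ (y = g * x) := inv_mul_eq_iff_eq_mul
  by_cases h : g⁻¹ * y = x
  · rw [if_pos h, if_pos (this.1 h)]
  · rw [if_neg h, if_neg (fun h' => h (this.2 h'))]

/-- Left translations as a monoid homomorphism into the bounded operators. -/
def Lhom (G : Type*) [Group G] : G →* (E2 G →L[ℂ] E2 G) where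
  toFun x := (Lt x).toContinuousLinearMap
  map_one' := by
    ext1 f
    apply lp.ext
    funext y
    simp
  map_mul' x y := by
    ext1 f
    apply lp.ext
    funext z
    simp [mul_assoc]

/-- The convolution operator of an element of the group algebra. -/
def Top (G : Type*) [Group G] : MonoidAlgebra ℂ G →ₐ[ℂ] (E2 G →L[ℂ] E2 G) :=
  MonoidAlgebra.lift ℂ (E2 G →L[ℂ] E2 G) G (Lhom G)

lemma Top_apply (e : MonoidAlgebra ℂ G) (f : E2 G) :
    Top G e f = ∑ x ∈ e.coeff.support, e.coeff x • Lt x f := by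
  unfold Top
  rw [MonoidAlgebra.lift_apply, Finsupp.sum]
  simp [Lhom]

lemma Top_apply_apply (e : MonoidAlgebra ℂ G) (f : E2 G) (y : G) :
    Top G e f y = ∑ x ∈ e.coeff.support, e.coeff x * f (x⁻¹ * y) := by
  rw [Top_apply, lp.coeFn_sum, Finset.sum_apply]
  rfl

lemma Top_Rt (e : MonoidAlgebra ℂ G) (g : G) (f : E2 G) :
    Top G e (Rt g f) = Rt g (Top G e f) := by
  rw [Top_apply, Top_apply, map_sum]
  refine Finset.sum_congr rfl fun x _ => ?_
  rw [Lt_Rt, map_smul]

lemma Top_dl (e : MonoidAlgebra ℂ G) (y : G) : Top G e (dl 1) y = e.coeff y := by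
  classical
  rw [Top_apply_apply]
  have : ∀ x ∈ e.coeff.support, e.coeff x * dl (1:G) (x⁻¹ * y) = if x = y then e.coeff y else 0 := by
    intro x _
    rw [dl_apply]
    by_cases h : x = y
    · subst h; simp
    · have : ¬ (x⁻¹ * y = 1) := fun h' => h (by
        rw [inv_mul_eq_one] at h'; exact h')
      simp [h, this]
  rw [Finset.sum_congr rfl this, Finset.sum_ite_eq']
  by_cases hy : y ∈ e.coeff.support
  · simp [hy]
  · simp [hy, Finsupp.notMem_support_iff.1 hy]

section proj

variable (V : Submodule ℂ (E2 G)) [V.HasOrthogonalProjection]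

/-- The projection of the basis vector at the identity. -/
def xi : E2 G := V.starProjection (dl 1)

variable {V} (hV : ∀ (g : G) (f : E2 G), f ∈ V → Rt g f ∈ V)

include hV in
lemma proj_Rt (g : G) (f : E2 G) : V.starProjection (Rt g f) = Rt g (V.starProjection f) := by
  apply Submodule.eq_starProjection_of_mem_of_inner_eq_zero
  · exact hV _ _ (Submodule.starProjection_apply_mem _ _)
  · intro w hw
    have h1 : w = Rt g (Rt g⁻¹ w) := by rw [Rt_Rt]; simp [Rt_one]
    rw [← map_sub, h1, LinearIsometry.inner_map_map]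
    exact Submodule.starProjection_inner_eq_zero _ _ (hV _ _ hw)

include hV in
lemma proj_dl (w : G) : V.starProjection (dl w) = Rt w⁻¹ (xi V) := by
  have h : dl w = Rt w⁻¹ (dl (1:G)) := by rw [Rt_dl]; simp
  rw [h, proj_Rt hV]
  rfl

include hV in
lemma proj_apply (f : E2 G) (w : G) : V.starProjection f w = ⟪Rt w⁻¹ (xi V), f⟫_ℂ := by
  rw [← inner_dl_left w, ← Submodule.inner_starProjection_left_eq_right, proj_dl hV]

lemma xi_mem : xi V ∈ V := Submodule.starProjection_apply_mem _ _

lemma proj_xi : V.starProjection (xi V) = xi V :=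
  Submodule.starProjection_eq_self_iff.2 xi_mem

include hV in
lemma xi_inv (x : G) : xi V x⁻¹ = (starRingEnd ℂ) (xi V x) := by
  have h1 : xi V x = ⟪Rt x⁻¹ (xi V), dl 1⟫_ℂ := by
    conv_lhs => rw [xi]
    rw [proj_apply hV]
  rw [h1, inner_dl_right]
  simp

lemma xi_one : xi V 1 = ((‖xi V‖ ^ 2 : ℝ) : ℂ) := by
  rw [← inner_dl_left, xi, ← Submodule.starProjection_eq_self_iff.2
    (Submodule.starProjection_apply_mem V (dl 1)), ← Submodule.inner_starProjection_left_eq_right]
  rw [Submodule.starProjection_eq_self_iff.2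
    (Submodule.starProjection_apply_mem V (dl 1))]
  rw [inner_self_eq_norm_sq_to_K]
  push_cast
  rfl

include hV in
lemma inner_Lt_xi (x : G) : ⟪xi V, Lt x (xi V)⟫_ℂ = xi V x⁻¹ := by
  have h1 : xi V x⁻¹ = ⟪Rt x (xi V), xi V⟫_ℂ := by
    conv_lhs => rw [← proj_xi (V := V)]
    rw [proj_apply hV, inv_inv]
  rw [h1, lp.inner_eq_tsum, lp.inner_eq_tsum, ← (Equiv.inv G).tsum_eq]
  congr 1
  funext y
  simp only [Equiv.inv_apply, Lt_apply, Rt_apply]
  have h2 : xi V (x⁻¹ * y⁻¹) = (starRingEnd ℂ) (xi V (y * x)) := by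
    rw [← xi_inv hV, mul_inv_rev]
  rw [xi_inv hV, h2]
  simp [mul_comm]

end proj

end H61R3NG
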