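import Pool.Agent.H61R3.NG1

set_option autoImplicit false
set_option linter.unusedSectionVars false

open scoped ENNReal InnerProductSpace Pointwise

noncomputable section

namespace H61R3NG

/-- The angle inequality in projective Hilbert space. -/
lemma angle {E : Type*} [NormedAddCommGroup E] [InnerProductSpace ℂ E] (u v w : E)
    (hu : ‖u‖ = 1) (hv : ‖v‖ = 1) (hw : ‖w‖ = 1) (α β : ℝ)
    (hα : 0 ≤ α) (hα' : α ≤ Real.pi / 2) (hβ : 0 ≤ β) (hβ' : β ≤ Real.pi / 2)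
    (h1 : Real.cos α ≤ ‖⟪v, u⟫_ℂ‖) (h2 : Real.cos β ≤ ‖⟪v, w⟫_ℂ‖) :
    Real.cos (α + β) ≤ ‖⟪u, w⟫_ℂ‖ := by
  set p : ℂ := ⟪v, u⟫_ℂ with hp
  set q : ℂ := ⟪v, w⟫_ℂ with hq
  have hvv : ⟪v, v⟫_ℂ = 1 := by rw [inner_self_eq_norm_sq_to_K, hv]; simp
  have huv : ⟪u, v⟫_ℂ = (starRingEnd ℂ) p := by rw [hp, inner_conj_symm]
  have hwv : ⟪w, v⟫_ℂ = (starRingEnd ℂ) q := by rw [hq, inner_conj_symm]
  have key : ∀ (x y : E), ⟪x - ⟪v, x⟫_ℂ • v, y - ⟪v, y⟫_ℂ • v⟫_ℂ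
      = ⟪x, y⟫_ℂ - (starRingEnd ℂ) ⟪v, x⟫_ℂ * ⟪v, y⟫_ℂ := by
    intro x y
    rw [inner_sub_left, inner_sub_right, inner_sub_right, inner_smul_left, inner_smul_right,
      inner_smul_left, inner_smul_right, hvv, ← inner_conj_symm x v]
    ring
  have hn : ∀ x : E, ‖x‖ = 1 → ‖x - ⟪v, x⟫_ℂ • v‖ ^ 2 = 1 - ‖⟪v, x⟫_ℂ‖ ^ 2 := by
    intro x hx
    have h := key x x
    rw [inner_self_eq_norm_sq_to_K, inner_self_eq_norm_sq_to_K, hx, Complex.conj_mul'] at h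
    have h' := congrArg Complex.re h
    simpa [← Complex.ofReal_pow] using h'
  set u' := u - p • v with hu'
  set w' := w - q • v with hw'
  have hnu : ‖u'‖ ^ 2 = 1 - ‖p‖ ^ 2 := hn u hu
  have hnw : ‖w'‖ ^ 2 = 1 - ‖q‖ ^ 2 := hn w hw
  have hkey : ⟪u', w'⟫_ℂ = ⟪u, w⟫_ℂ - (starRingEnd ℂ) p * q := key u w
  have hge : ‖p‖ * ‖q‖ - ‖u'‖ * ‖w'‖ ≤ ‖⟪u, w⟫_ℂ‖ := by
    have e1 : (starRingEnd ℂ) p * q = ⟪u, w⟫_ℂ - ⟪u', w'⟫_ℂ := by rw [hkey]; ring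
    have e2 : ‖p‖ * ‖q‖ = ‖(starRingEnd ℂ) p * q‖ := by rw [norm_mul, RCLike.norm_conj]
    have e3 := norm_sub_le ⟪u, w⟫_ℂ ⟪u', w'⟫_ℂ
    have e4 := norm_inner_le_norm (𝕜 := ℂ) u' w'
    rw [e2, e1]
    linarith
  have hca : 0 ≤ Real.cos α := Real.cos_nonneg_of_mem_Icc ⟨by linarith [Real.pi_pos], hα'⟩
  have hcb : 0 ≤ Real.cos β := Real.cos_nonneg_of_mem_Icc ⟨by linarith [Real.pi_pos], hβ'⟩
  have hsa : 0 ≤ Real.sin α := Real.sin_nonneg_of_nonneg_of_le_pi hα (by linarith [Real.pi_pos])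
  have hsb : 0 ≤ Real.sin β := Real.sin_nonneg_of_nonneg_of_le_pi hβ (by linarith [Real.pi_pos])
  have hua : ‖u'‖ ≤ Real.sin α := by
    apply le_of_sq_le_sq _ hsa
    rw [hnu]
    nlinarith [Real.sin_sq_add_cos_sq α, norm_nonneg p]
  have hwb : ‖w'‖ ≤ Real.sin β := by
    apply le_of_sq_le_sq _ hsb
    rw [hnw]
    nlinarith [Real.sin_sq_add_cos_sq β, norm_nonneg q]
  rw [Real.cos_add]
  have h3 : Real.cos α * Real.cos β ≤ ‖p‖ * ‖q‖ :=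
    mul_le_mul h1 h2 hcb (norm_nonneg _)
  have h4 : ‖u'‖ * ‖w'‖ ≤ Real.sin α * Real.sin β :=
    mul_le_mul hua hwb (norm_nonneg _) hsa
  linarith

variable {G : Type*} [Group G]

section level

variable {V : Submodule ℂ (E2 G)} [V.HasOrthogonalProjection]
  (hV : ∀ (g : G) (f : E2 G), f ∈ V → Rt g f ∈ V)

include hV in
lemma norm_xi_le (x : G) : ‖xi V x‖ ≤ ‖xi V‖ ^ 2 := by
  have h := inner_Lt_xi hV x⁻¹
  rw [inv_inv] at h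
  rw [← h]
  refine (norm_inner_le_norm (𝕜 := ℂ) _ _).trans ?_
  rw [LinearIsometry.norm_map, sq]

include hV in
lemma norm_xi_inv (x : G) : ‖xi V x⁻¹‖ = ‖xi V x‖ := by
  rw [xi_inv hV, RCLike.norm_conj]

include hV in
/-- The level sets multiply like angles. -/
lemma level (ht : 0 < ‖xi V‖ ^ 2) (x y : G) (α β : ℝ)
    (hα : 0 ≤ α) (hα' : α ≤ Real.pi / 2) (hβ : 0 ≤ β) (hβ' : β ≤ Real.pi / 2)
    (h1 : Real.cos α ≤ ‖xi V x‖ / ‖xi V‖ ^ 2) (h2 : Real.cos β ≤ ‖xi V y‖ / ‖xi V‖ ^ 2) :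
    Real.cos (α + β) ≤ ‖xi V (x * y)‖ / ‖xi V‖ ^ 2 := by
  have hx0 : 0 < ‖xi V‖ := by
    rcases (norm_nonneg (xi V)).lt_or_eq with h | h
    · exact h
    · rw [← h] at ht; simp at ht
  set s : ℂ := ((‖xi V‖⁻¹ : ℝ) : ℂ) with hs
  have hsn : ‖s‖ = ‖xi V‖⁻¹ := by
    rw [hs, Complex.norm_real, Real.norm_of_nonneg (inv_nonneg.2 hx0.le)]
  set v : E2 G := s • xi V with hv
  have hv1 : ‖v‖ = 1 := by
    rw [hv, norm_smul, hsn, inv_mul_cancel₀ hx0.ne']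
  have hin : ∀ z : G, ‖⟪v, Lt z v⟫_ℂ‖ = ‖xi V z‖ / ‖xi V‖ ^ 2 := by
    intro z
    rw [hv, map_smul, inner_smul_left, inner_smul_right, inner_Lt_xi hV, norm_mul, norm_mul,
      RCLike.norm_conj, hsn, norm_xi_inv hV]
    field_simp
  have hLL : ∀ a b : G, ∀ f : E2 G, Lt a (Lt b f) = Lt (a * b) f := by
    intro a b f
    apply lp.ext
    funext z
    simp [mul_assoc]
  have h3 := angle (Lt x⁻¹ v) v (Lt y v) (by rw [LinearIsometry.norm_map, hv1]) hv1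
    (by rw [LinearIsometry.norm_map, hv1]) α β hα hα' hβ hβ'
    (by rw [hin, norm_xi_inv hV]; exact h1) (by rw [hin]; exact h2)
  refine h3.trans (le_of_eq ?_)
  have h4 : ⟪Lt x⁻¹ v, Lt y v⟫_ℂ = ⟪v, Lt (x * y) v⟫_ℂ := by
    rw [← hLL, ← LinearIsometry.inner_map_map (Lt x) (Lt x⁻¹ v) (Lt y v), hLL]
    have : Lt (x * x⁻¹) v = v := by
      apply lp.ext
      funext z
      simp
    rw [this]
  rw [h4, hin]

end level

end H61R3NG
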