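import Mathlib

/-!
Heisenberg Lie algebra over `ZMod 3` with `z^[3] = z`, and a corner `M_2` of the block `M_3` of its
restricted enveloping algebra.
-/

set_option autoImplicit false

namespace Pool.Agent.H61R3.PI

attribute [local instance 100] LieRing.ofAssociativeRing

abbrev K := ZMod 3

instance : Fact (Nat.Prime 3) := ⟨by norm_num⟩

/-- The Heisenberg Lie algebra over `ZMod 3`. -/
def Heis : Type := K × K × K

instance : AddCommGroup Heis := inferInstanceAs (AddCommGroup (K × K × K))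
instance : Module K Heis := inferInstanceAs (Module K (K × K × K))

def mk (a b c : K) : Heis := ((a, b, c) : K × K × K)
def pa (x : Heis) : K := Prod.fst (x : K × K × K)
def pb (x : Heis) : K := Prod.fst (Prod.snd (x : K × K × K))
def pc (x : Heis) : K := Prod.snd (Prod.snd (x : K × K × K))

lemma hext {a b : Heis} (h1 : pa a = pa b) (h2 : pb a = pb b) (h3 : pc a = pc b) : a = b :=
  Prod.ext h1 (Prod.ext h2 h3)

@[simp] lemma pa_mk (a b c : K) : pa (mk a b c) = a := rfl
@[simp] lemma pb_mk (a b c : K) : pb (mk a b c) = b := rfl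
@[simp] lemma pc_mk (a b c : K) : pc (mk a b c) = c := rfl
@[simp] lemma pa_add (x y : Heis) : pa (x + y) = pa x + pa y := rfl
@[simp] lemma pb_add (x y : Heis) : pb (x + y) = pb x + pb y := rfl
@[simp] lemma pc_add (x y : Heis) : pc (x + y) = pc x + pc y := rfl
@[simp] lemma pa_smul (c : K) (y : Heis) : pa (c • y) = c * pa y := rfl
@[simp] lemma pb_smul (c : K) (y : Heis) : pb (c • y) = c * pb y := rfl
@[simp] lemma pc_smul (c : K) (y : Heis) : pc (c • y) = c * pc y := rfl
@[simp] lemma pa_zero : pa 0 = 0 := rfl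
@[simp] lemma pb_zero : pb 0 = 0 := rfl
@[simp] lemma pc_zero : pc 0 = 0 := rfl

instance : Bracket Heis Heis := ⟨fun a b => mk 0 0 (pa a * pb b - pa b * pb a)⟩

lemma brk (a b : Heis) : ⁅a, b⁆ = mk 0 0 (pa a * pb b - pa b * pb a) := rfl

instance : LieRing Heis where
  add_lie x y z := by
    refine hext ?_ ?_ ?_ <;> simp [brk] <;> ring
  lie_add x y z := by
    refine hext ?_ ?_ ?_ <;> simp [brk] <;> ring
  lie_self x := by
    refine hext ?_ ?_ ?_ <;> simp [brk]
  leibniz_lie x y z := by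
    refine hext ?_ ?_ ?_ <;> simp [brk]

instance : LieAlgebra K Heis where
  lie_smul c x y := by
    refine hext ?_ ?_ ?_ <;> simp [brk] <;> ring

/-- the `p`-map -/
def f (x : Heis) : Heis := mk 0 0 (pc x)

lemma cube (c : K) : c ^ 3 = c := by
  revert c; decide

lemma f_smul (a : K) (x : Heis) : f (a • x) = a ^ 3 • f x := by
  rw [cube]
  refine hext ?_ ?_ ?_ <;> simp [f]

lemma f_add (x y : Heis) : f (x + y) = f x + f y := by
  refine hext ?_ ?_ ?_ <;> simp [f]

lemma f_brk (x y : Heis) : ⁅f x, y⁆ = 0 := by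
  refine hext ?_ ?_ ?_ <;> simp [f, brk]

lemma brk_brk (x y z : Heis) : ⁅x, ⁅y, z⁆⁆ = 0 := by
  refine hext ?_ ?_ ?_ <;> simp [brk]

lemma f_ad (x y : Heis) : (LieAlgebra.ad K Heis x ^ 3) y = ⁅f x, y⁆ := by
  rw [f_brk]
  simp only [pow_succ, pow_zero, one_mul, Module.End.mul_apply, LieAlgebra.ad_apply]
  rw [brk_brk]

abbrev U := UniversalEnvelopingAlgebra K Heis

lemma cube_add {A : Type*} [Ring A] (a b c : A) (h3 : (3 : A) = 0) (h : a * b = b * a + c)
    (h1 : a * c = c * a) (h2 : b * c = c * b) : (a + b) ^ 3 - a ^ 3 - b ^ 3 = 0 := by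
  have e1 : a * a * b = b * a * a + c * a + a * c := by
    rw [mul_assoc, h, mul_add, ← mul_assoc, h, add_mul]
  have e2 : a * b * a = b * a * a + c * a := by rw [h, add_mul]
  have e3 : a * b * b = b * b * a + b * c + c * b := by
    rw [h, add_mul, mul_assoc, h, mul_add, ← mul_assoc]
  have e4 : b * a * b = b * b * a + b * c := by
    rw [mul_assoc, h, mul_add, ← mul_assoc]
  have : (a + b) ^ 3 - a ^ 3 - b ^ 3 =
      a * a * b + a * b * a + b * a * a + a * b * b + b * a * b + b * b * a := by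
    noncomm_ring
  rw [this, e1, e2, e3, e4, h1, h2]
  have : b * a * a + c * a + c * a + (b * a * a + c * a) + b * a * a +
      (b * b * a + c * b + c * b) + (b * b * a + c * b) + b * b * a =
      3 * (b * a * a + c * a + b * b * a + c * b) := by noncomm_ring
  rw [this, h3, zero_mul]

lemma three_zero (A : Type*) [Ring A] [Algebra K A] : (3 : A) = 0 := by
  have h : (3 : K) = 0 := by decide
  have h2 := congrArg (algebraMap K A) h
  rwa [map_zero, map_ofNat] at h2

lemma f_jac (x y : Heis) :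
      UniversalEnvelopingAlgebra.ι K (f (x + y)) - UniversalEnvelopingAlgebra.ι K (f x)
        - UniversalEnvelopingAlgebra.ι K (f y)
      = (UniversalEnvelopingAlgebra.ι K x + UniversalEnvelopingAlgebra.ι K y) ^ 3
        - UniversalEnvelopingAlgebra.ι K x ^ 3 - UniversalEnvelopingAlgebra.ι K y ^ 3 := by
  rw [f_add, map_add]
  have h : ∀ x y : Heis, UniversalEnvelopingAlgebra.ι K x * UniversalEnvelopingAlgebra.ι K y =
      UniversalEnvelopingAlgebra.ι K y * UniversalEnvelopingAlgebra.ι K x +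
        UniversalEnvelopingAlgebra.ι K ⁅x, y⁆ := by
    intro x y
    rw [LieHom.map_lie, Ring.lie_def]; abel
  have hc : ∀ x y z : Heis, UniversalEnvelopingAlgebra.ι K x *
      UniversalEnvelopingAlgebra.ι K ⁅y, z⁆ = UniversalEnvelopingAlgebra.ι K ⁅y, z⁆ *
      UniversalEnvelopingAlgebra.ι K x := by
    intro x y z
    rw [h, brk_brk, map_zero, add_zero]
  rw [cube_add _ _ _ (three_zero U) (h x y) (hc _ _ _) (hc _ _ _)]
  abel

/-! ### The representation on `F[t]/(t^3)` -/

def DX : Matrix (Fin 3) (Fin 3) K := !![0, 1, 0; 0, 0, 2; 0, 0, 0]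
def DY : Matrix (Fin 3) (Fin 3) K := !![0, 0, 0; 1, 0, 0; 0, 1, 0]

lemma DXY : DX * DY = DY * DX + 1 := by decide

def ρfun (x : Heis) : Matrix (Fin 3) (Fin 3) K := pa x • DX + pb x • DY + pc x • 1

lemma ρ_brk (x y : Heis) : ρfun ⁅x, y⁆ = ρfun x * ρfun y - ρfun y * ρfun x := by
  simp only [ρfun, brk, pa_mk, pb_mk, pc_mk, zero_smul, zero_add, mul_add, add_mul,
    smul_mul_assoc, mul_smul_comm, mul_one,
    one_mul, DXY, smul_add, smul_smul, sub_smul]
  rw [mul_comm (pa y) (pa x), mul_comm (pc y) (pa x), mul_comm (pb y) (pb x),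
    mul_comm (pc y) (pb x), mul_comm (pc y) (pc x), mul_comm (pb y) (pa x),
    mul_comm (pb x) (pa y), mul_comm (pb y) (pc x), mul_comm (pa y) (pc x)]
  abel

lemma ρ_cube (x : Heis) : ρfun x ^ 3 = ρfun (f x) := by
  obtain ⟨a, b, c⟩ := x
  revert a b c
  decide +kernel

def ρ : Heis →ₗ⁅K⁆ Matrix (Fin 3) (Fin 3) K where
  toFun := ρfun
  map_add' x y := by
    simp only [ρfun, pa_add, pb_add, pc_add, add_smul]; abel
  map_smul' c x := by
    simp only [ρfun, pa_smul, pb_smul, pc_smul, RingHom.id_apply, smul_add, smul_smul]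
  map_lie' := by
    intro x y
    exact ρ_brk x y

end Pool.Agent.H61R3.PI
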