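import Pool.Agent.H61R3.PI

set_option autoImplicit false
set_option linter.unusedSectionVars false
set_option linter.unusedSimpArgs false

namespace Pool.Agent.H61R3.PI

attribute [local instance 100] LieRing.ofAssociativeRing

section Units

variable {A : Type*} [Ring A] [Algebra K A] (x y z : A)

/-- the relations of the restricted Heisenberg algebra -/
structure Rels : Prop where
  x3 : x ^ 3 = 0
  y3 : y ^ 3 = 0
  z3 : z ^ 3 = z
  xy : x * y = y * x + z
  zx : z * x = x * z
  zy : z * y = y * z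

/-- the idempotent -/
def ee : A := z ^ 2 + z

/-- the rank one idempotent -/
def uu : A := x ^ 2 * y ^ 2 * ee z

variable {x y z}

lemma three_smul (a : A) : a + a + a = 0 := by
  have h := three_zero A
  have : a + a + a = 3 * a := by noncomm_ring
  rw [this, h, zero_mul]

lemma z_ee (h : Rels x y z) : z * ee z = ee z := by
  unfold ee
  have : z * (z ^ 2 + z) = z ^ 3 + z ^ 2 := by noncomm_ring
  rw [this, h.z3, add_comm]

lemma ee_ee (h : Rels x y z) : ee z * ee z = - ee z := by
  have h1 : ee z * ee z = z * (z * ee z) + z * ee z := by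
    conv_lhs => rw [ee]
    unfold ee
    noncomm_ring
  rw [h1, z_ee h, z_ee h]
  have := three_smul (ee z)
  exact eq_neg_of_add_eq_zero_left this

lemma ee_x (h : Rels x y z) : ee z * x = x * ee z := by
  have hc : Commute z x := h.zx
  exact ((hc.pow_left 2).add_left hc).eq

lemma ee_y (h : Rels x y z) : ee z * y = y * ee z := by
  have hc : Commute z y := h.zy
  exact ((hc.pow_left 2).add_left hc).eq

lemma x_uu (h : Rels x y z) : x * uu x y z = 0 := by
  have : x * uu x y z = x ^ 3 * y ^ 2 * ee z := by unfold uu; noncomm_ring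
  rw [this, h.x3, zero_mul, zero_mul]

lemma uu_y (h : Rels x y z) : uu x y z * y = 0 := by
  have : uu x y z * y = x ^ 2 * y ^ 2 * (ee z * y) := by unfold uu; noncomm_ring
  rw [this, ee_y h]
  have : x ^ 2 * y ^ 2 * (y * ee z) = x ^ 2 * y ^ 3 * ee z := by noncomm_ring
  rw [this, h.y3, mul_zero, zero_mul]

lemma z_comm_uu (h : Rels x y z) : z * uu x y z = x ^ 2 * y ^ 2 * (z * ee z) := by
  have hx : Commute z x := h.zx
  have hy : Commute z y := h.zy
  have : Commute z (x ^ 2 * y ^ 2) := (hx.pow_right 2).mul_right (hy.pow_right 2)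
  unfold uu
  rw [← mul_assoc, this.eq, mul_assoc]

lemma z_uu (h : Rels x y z) : z * uu x y z = uu x y z := by
  rw [z_comm_uu h, z_ee h, uu]

lemma ee_uu (h : Rels x y z) : ee z * uu x y z = - uu x y z := by
  have : ee z * uu x y z = z * (z * uu x y z) + z * uu x y z := by
    conv_lhs => rw [ee]
    noncomm_ring
  rw [this, z_uu h, z_uu h]
  exact eq_neg_of_add_eq_zero_left (three_smul _)

lemma xy_uu (h : Rels x y z) : x * (y * uu x y z) = uu x y z := by
  rw [← mul_assoc, h.xy, add_mul, mul_assoc, x_uu h, mul_zero, zero_add, z_uu h]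

lemma xxyy_uu (h : Rels x y z) : x ^ 2 * y ^ 2 * uu x y z = - uu x y z := by
  have h1 : x ^ 2 * y ^ 2 * uu x y z = x * ((x * y) * (y * uu x y z)) := by noncomm_ring
  have h2 : x * ((y * x + z) * (y * uu x y z)) =
    x * (y * (x * (y * uu x y z))) + x * ((z * y) * uu x y z) := by noncomm_ring
  rw [h1, h.xy, h2, xy_uu h, xy_uu h, h.zy, mul_assoc y z, z_uu h, xy_uu h]
  exact eq_neg_of_add_eq_zero_left (three_smul _)

lemma uu_uu (h : Rels x y z) : uu x y z * uu x y z = uu x y z := by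
  have : uu x y z * uu x y z = x ^ 2 * y ^ 2 * (ee z * uu x y z) := by
    rw [← mul_assoc]; rfl
  rw [this, ee_uu h, mul_neg, xxyy_uu h, neg_neg]

variable (x y z) in
/-- the matrix units -/
def E (i j : Fin 2) : A := y ^ (i : ℕ) * uu x y z * x ^ (j : ℕ)

lemma E_mul (h : Rels x y z) (i j k l : Fin 2) :
    E x y z i j * E x y z k l = if j = k then E x y z i l else 0 := by
  have key : uu x y z * x ^ (j : ℕ) * (y ^ (k : ℕ) * uu x y z) =
      if j = k then uu x y z else 0 := by
    fin_cases j <;> fin_cases k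
    · simp [uu_uu h]
    · simp only [Fin.zero_eta, Fin.val_zero, pow_zero, mul_one, Fin.mk_one, Fin.val_one, pow_one]
      rw [← mul_assoc, uu_y h, zero_mul]; simp
    · simp only [Fin.zero_eta, Fin.val_zero, pow_zero, one_mul, Fin.mk_one, Fin.val_one, pow_one]
      rw [mul_assoc, x_uu h, mul_zero]; simp
    · simp only [Fin.mk_one, Fin.val_one, pow_one]
      rw [mul_assoc, xy_uu h, uu_uu h]; simp
  have : E x y z i j * E x y z k l = y ^ (i : ℕ) * (uu x y z * x ^ (j : ℕ) *
    (y ^ (k : ℕ) * uu x y z)) * x ^ (l : ℕ) := by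
    unfold E; simp only [mul_assoc]
  rw [this, key]
  split_ifs
  · rfl
  · simp

abbrev M2 := Matrix (Fin 2) (Fin 2) K

/-- the embedding of `M_2` -/
def φfun (x y z : A) (M : M2) : A := ∑ i, ∑ j, M i j • E x y z i j

lemma φ_mul (h : Rels x y z) (M N : M2) :
    φfun x y z (M * N) = φfun x y z M * φfun x y z N := by
  simp only [φfun, Fin.sum_univ_two, Matrix.mul_apply, mul_add, add_mul, smul_mul_smul_comm,
    E_mul h, add_smul]
  simp
  abel

/-- the embedding of `M_2` as a homomorphism -/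
def φ (h : Rels x y z) : M2 →ₙₐ[K] A where
  toFun := φfun x y z
  map_smul' c M := by
    simp only [φfun, Matrix.smul_apply, Finset.smul_sum, smul_smul, smul_eq_mul,
      MonoidHom.id_apply]
  map_zero' := by simp [φfun]
  map_add' M N := by
    simp only [φfun, Matrix.add_apply, add_smul, Finset.sum_add_distrib]
  map_mul' := φ_mul h

end Units

/-! ### Identities of `M_2` over `ZMod 3` -/

lemma pow26 : ∀ M : M2, M ^ 26 = M ^ 2 := by
  decide +kernel

/-- the standard polynomial of degree four as an alternating map -/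
def S4 : M2 [⋀^Fin 4]→ₗ[K] M2 :=
  MultilinearMap.alternatization (MultilinearMap.mkPiAlgebraFin K 4 M2)

lemma S4_apply (v : Fin 4 → M2) : S4 v = ∑ σ : Equiv.Perm (Fin 4),
    ((Equiv.Perm.sign σ : ℤˣ) : ℤ) • (List.ofFn fun i => v (σ i)).prod := by
  simp [S4, MultilinearMap.alternatization_apply, Units.smul_def]

/-- the standard basis -/
def bs : Fin 4 → M2 := ![!![1, 0; 0, 0], !![0, 1; 0, 0], !![0, 0; 1, 0], !![0, 0; 0, 1]]

lemma S4_bs : S4 bs = 0 := by
  rw [S4_apply]
  decide +kernel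

/-- the standard basis as a basis -/
noncomputable def bas : Module.Basis (Fin 4) K M2 :=
  (Matrix.stdBasis K (Fin 2) (Fin 2)).reindex (finProdFinEquiv)

lemma bas_eq (i : Fin 4) : bas i = bs i := by
  unfold bas bs
  rw [Module.Basis.reindex_apply]
  fin_cases i <;> simp [finProdFinEquiv, Matrix.stdBasis_eq_single] <;> decide

lemma S4_zero : S4 = 0 := by
  apply Module.Basis.ext_alternating bas
  intro v hv
  have hb : Function.Bijective v := (Finite.injective_iff_bijective).mp hv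
  have h := AlternatingMap.map_perm S4 bs (Equiv.ofBijective v hb)
  have h2 : (bs ∘ (Equiv.ofBijective v hb : Fin 4 → Fin 4)) = fun i => bas (v i) := by
    funext i
    simp [bas_eq]
  rw [h2, S4_bs, smul_zero] at h
  simpa using h

/-- The free algebra element `X^26 - X^2`. -/
noncomputable def idn : FreeAlgebra K (Fin 1) := FreeAlgebra.ι K 0 ^ 26 - FreeAlgebra.ι K 0 ^ 2

lemma idn_ne : idn ≠ 0 := by
  intro h
  have h2 := congrArg (FreeAlgebra.lift K (fun _ : Fin 1 => (Polynomial.X : Polynomial K))) h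
  simp only [idn, map_sub, map_pow, FreeAlgebra.lift_ι_apply, map_zero] at h2
  have h3 := congrArg (fun q => Polynomial.coeff q 26) h2
  simp [Polynomial.coeff_X_pow] at h3

lemma pow_map {B C : Type*} [Ring B] [Ring C] [Algebra K B] [Algebra K C] (g : B →ₙₐ[K] C) (b : B)
    (n : ℕ) : g b ^ (n + 1) = g (b ^ (n + 1)) := by
  induction n with
  | zero => simp
  | succ n ih => rw [pow_succ, ih, ← map_mul, ← pow_succ]

section Main

variable {A : Type} [Ring A] [Algebra K A] {x y z : A} (h : Rels x y z)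

/-- the subalgebra -/
def RR : NonUnitalSubalgebra K A := NonUnitalAlgHom.range (φ h)

lemma mem_RR (a : A) : a ∈ RR h ↔ ∃ M, φ h M = a := by
  unfold RR; exact NonUnitalAlgHom.mem_range _

lemma RR_PI : ∃ m : ℕ, ∃ ψ : FreeAlgebra K (Fin m), ψ ≠ 0 ∧
      ∀ r : Fin m → A, (∀ i, r i ∈ RR h) → FreeAlgebra.lift K r ψ = 0 := by
  refine ⟨1, idn, idn_ne, ?_⟩
  intro r hr
  obtain ⟨M, hM⟩ := (mem_RR h _).1 (hr 0)
  simp only [idn, map_sub, map_pow, FreeAlgebra.lift_ι_apply]
  rw [← hM, pow_map (φ h) M 25, pow_map (φ h) M 1, pow26]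
  simp

lemma RR_S4 : ∃ t : ℕ, 1 ≤ t ∧ ∀ r : Fin (2 * 2) → A, (∀ i, r i ∈ RR h) →
    (∑ σ : Equiv.Perm (Fin (2 * 2)),
      ((Equiv.Perm.sign σ : ℤˣ) : ℤ) • (List.ofFn fun i => r (σ i)).prod) ^ t = 0 := by
  refine ⟨1, le_refl 1, ?_⟩
  intro r hr
  rw [pow_one]
  choose M hM using fun i => (mem_RR h _).1 (hr i)
  have key : ∀ s : Fin 4 → Fin 4, (List.ofFn fun i => r (s i)).prod =
      φ h ((List.ofFn fun i => M (s i)).prod) := by
    intro s
    simp only [List.ofFn_succ, List.ofFn_zero, List.prod_cons, List.prod_nil, mul_one, map_mul, hM]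
  have h4 : (∑ σ : Equiv.Perm (Fin 4),
      ((Equiv.Perm.sign σ : ℤˣ) : ℤ) • (List.ofFn fun i => M (σ i)).prod) = 0 := by
    rw [← S4_apply, S4_zero]; rfl
  have h5 := congrArg (φ h) h4
  rw [map_sum, map_zero] at h5
  rw [← h5]
  refine Finset.sum_congr rfl fun σ _ => ?_
  rw [map_zsmul]
  congr 1
  exact key σ

lemma RR_S2 (hu : uu x y z ≠ 0) : ¬ ∃ t : ℕ, 1 ≤ t ∧ ∀ r : Fin (2 * 1) → A, (∀ i, r i ∈ RR h) →
    (∑ σ : Equiv.Perm (Fin (2 * 1)),
      ((Equiv.Perm.sign σ : ℤˣ) : ℤ) • (List.ofFn fun i => r (σ i)).prod) ^ t = 0 := by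
  rintro ⟨t, ht, H⟩
  have hr : ∀ i : Fin 2, (![φ h (bs 1), φ h (bs 2)] : Fin 2 → A) i ∈ RR h := by
    intro i
    rw [mem_RR]
    fin_cases i
    · exact ⟨_, rfl⟩
    · exact ⟨_, rfl⟩
  have H1 := H ![φ h (bs 1), φ h (bs 2)] hr
  have e1 : (∑ σ : Equiv.Perm (Fin 2),
      ((Equiv.Perm.sign σ : ℤˣ) : ℤ) • (List.ofFn fun i =>
        (![φ h (bs 1), φ h (bs 2)] : Fin 2 → A) (σ i)).prod) = φ h (bs 0 - bs 3) := by
    have e2 : bs 0 - bs 3 = bs 1 * bs 2 - bs 2 * bs 1 := by decide +kernel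
    rw [e2, map_sub, map_mul, map_mul]
    rw [show (Finset.univ : Finset (Equiv.Perm (Fin 2))) = {1, Equiv.swap 0 1} by decide]
    rw [Finset.sum_pair (by decide)]
    simp [sub_eq_add_neg]
  have H2 : φ h (bs 0 - bs 3) ^ t = 0 := by rw [← e1]; exact H1
  have e3 : ∀ s : ℕ, φ h (bs 0 - bs 3) ^ s * φ h (bs 0) = φ h (bs 0) := by
    intro s
    induction s with
    | zero => simp
    | succ s ih =>
      rw [pow_succ, mul_assoc, ← map_mul, show (bs 0 - bs 3) * bs 0 = bs 0 by decide +kernel, ih]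
  have e4 := e3 t
  rw [H2, zero_mul] at e4
  apply hu
  have e5 : φ h (bs 0) = uu x y z := by
    change φfun x y z (bs 0) = _
    simp [φfun, Fin.sum_univ_two, bs, E]
  rw [← e5, ← e4]

end Main

end Pool.Agent.H61R3.PI
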