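import Pool.Agent.H61R3.PI2

set_option autoImplicit false

namespace Pool.Agent.H61R3.PI

attribute [local instance 100] LieRing.ofAssociativeRing

/-- the restricted enveloping algebra -/
abbrev Q : Type := RingQuot (fun a b : UniversalEnvelopingAlgebra K Heis =>
        ∃ x : Heis, a = UniversalEnvelopingAlgebra.ι K x ^ 3 ∧ b = UniversalEnvelopingAlgebra.ι K (f x))

/-- quotient map -/
noncomputable def π : U →ₐ[K] Q := RingQuot.mkAlgHom K _

/-- the composite -/
noncomputable def qi (x : Heis) : Q := π (UniversalEnvelopingAlgebra.ι K x)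

lemma qi_cube (x : Heis) : qi x ^ 3 = qi (f x) := by
  unfold qi π
  rw [← map_pow]
  exact RingQuot.mkAlgHom_rel K ⟨x, rfl, rfl⟩

lemma qi_comm (x y : Heis) : qi x * qi y = qi y * qi x + qi ⁅x, y⁆ := by
  unfold qi
  rw [LieHom.map_lie, Ring.lie_def, map_sub, map_mul, map_mul]; abel

lemma qi_zero : qi 0 = 0 := by unfold qi; rw [map_zero, map_zero]

lemma rels : Rels (qi (mk 1 0 0)) (qi (mk 0 1 0)) (qi (mk 0 0 1)) where
  x3 := by
    rw [qi_cube, show f (mk 1 0 0) = 0 from rfl, qi_zero]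
  y3 := by
    rw [qi_cube, show f (mk 0 1 0) = 0 from rfl, qi_zero]
  z3 := by
    rw [qi_cube]; rfl
  xy := by
    rw [qi_comm, show ⁅mk 1 0 0, mk 0 1 0⁆ = mk 0 0 1 by
      refine hext ?_ ?_ ?_ <;> simp [brk]]
  zx := by
    rw [qi_comm, show ⁅mk 0 0 1, mk 1 0 0⁆ = 0 by
      refine hext ?_ ?_ ?_ <;> simp [brk], qi_zero, add_zero]
  zy := by
    rw [qi_comm, show ⁅mk 0 0 1, mk 0 1 0⁆ = 0 by
      refine hext ?_ ?_ ?_ <;> simp [brk], qi_zero, add_zero]

/-- the representation of the restricted enveloping algebra -/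
noncomputable def Ψ : Q →ₐ[K] Matrix (Fin 3) (Fin 3) K :=
  RingQuot.liftAlgHom K ⟨UniversalEnvelopingAlgebra.lift K ρ, by
    rintro a b ⟨x, rfl, rfl⟩
    rw [map_pow, UniversalEnvelopingAlgebra.lift_ι_apply, UniversalEnvelopingAlgebra.lift_ι_apply]
    exact ρ_cube x⟩

lemma Ψ_qi (x : Heis) : Ψ (qi x) = ρfun x := by
  unfold Ψ qi π
  rw [RingQuot.liftAlgHom_mkAlgHom_apply, UniversalEnvelopingAlgebra.lift_ι_apply]
  rfl

lemma uu_ne : uu (qi (mk 1 0 0)) (qi (mk 0 1 0)) (qi (mk 0 0 1)) ≠ 0 := by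
  intro h
  have h2 := congrArg Ψ h
  simp only [uu, ee, map_mul, map_add, map_pow, Ψ_qi, map_zero] at h2
  revert h2
  decide +kernel

end Pool.Agent.H61R3.PI
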