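import Mathlib

set_option autoImplicit false
set_option linter.unusedSectionVars false

open scoped ENNReal

noncomputable section

namespace H61R3SD

variable {G : Type*} [Group G]

open Classical in
/-- off-diagonal energy -/
def en (S : Finset G) (a : G → ℂ) : ℝ :=
  ∑ y ∈ S.offDiag.image (fun z => z.2⁻¹ * z.1),
    ‖∑ z ∈ S.offDiag.filter (fun z => z.2⁻¹ * z.1 = y), (starRingEnd ℂ) (a z.1) * a z.2‖ ^ 2

lemma en_sidon (S : Finset G) (a : G → ℂ)
    (h1 : ∀ p q r s, p ∈ S → q ∈ S → r ∈ S → s ∈ S → p ≠ q → p⁻¹ * q = r⁻¹ * s → p = r) :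
    en S a = (∑ g ∈ S, ‖a g‖ ^ 2) ^ 2 - ∑ g ∈ S, ‖a g‖ ^ 4 := by
  classical
  have hinj : Set.InjOn (fun z : G × G => z.2⁻¹ * z.1) S.offDiag := by
    rintro ⟨g, k⟩ hz1 ⟨g', k'⟩ hz2 heq
    simp only [Finset.coe_offDiag, Set.mem_offDiag, Finset.mem_coe] at hz1 hz2
    simp only at heq
    have h3 := h1 k g k' g' hz1.2.1 hz1.1 hz2.2.1 hz2.1 (fun h => hz1.2.2 h.symm) heq
    subst h3
    have h4 : g = g' := mul_left_cancel heq
    rw [h4]
  unfold en
  rw [Finset.sum_image hinj]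
  have h2 : ∀ w ∈ S.offDiag, ‖∑ z ∈ S.offDiag.filter (fun z => z.2⁻¹ * z.1 = w.2⁻¹ * w.1),
      (starRingEnd ℂ) (a z.1) * a z.2‖ ^ 2 = (‖a w.1‖ * ‖a w.2‖) ^ 2 := by
    intro w hw
    have h3 : S.offDiag.filter (fun z => z.2⁻¹ * z.1 = w.2⁻¹ * w.1) = {w} := by
      ext z
      simp only [Finset.mem_filter, Finset.mem_singleton]
      constructor
      · rintro ⟨h4, h5⟩
        exact hinj (by exact_mod_cast h4) (by exact_mod_cast hw) h5
      · rintro rfl
        exact ⟨hw, rfl⟩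
    rw [h3, Finset.sum_singleton, norm_mul, RCLike.norm_conj]
  rw [Finset.sum_congr rfl h2]
  have hsplitR : ∀ φ : G × G → ℝ, ∑ g ∈ S, ∑ k ∈ S, φ (g, k)
      = (∑ g ∈ S, φ (g, g)) + ∑ z ∈ S.offDiag, φ z := by
    intro φ
    rw [← Finset.sum_product', ← Finset.diag_union_offDiag,
      Finset.sum_union (Finset.disjoint_diag_offDiag S), Finset.sum_diag]
  have := hsplitR (fun z => (‖a z.1‖ * ‖a z.2‖) ^ 2)
  have h3 : ∑ g ∈ S, ∑ k ∈ S, (‖a g‖ * ‖a k‖) ^ 2 = (∑ g ∈ S, ‖a g‖ ^ 2) ^ 2 := by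
    rw [pow_two (∑ g ∈ S, ‖a g‖ ^ 2), Finset.sum_mul_sum]
    refine Finset.sum_congr rfl fun g _ => Finset.sum_congr rfl fun k _ => ?_
    ring
  have h4 : ∑ g ∈ S, (‖a g‖ * ‖a g‖) ^ 2 = ∑ g ∈ S, ‖a g‖ ^ 4 := by
    refine Finset.sum_congr rfl fun g _ => ?_
    ring
  simp only at this
  rw [h3, h4] at this
  linarith

lemma main (S : Finset G) (a : G → ℂ)
    (f : lp (fun _ : G => ℂ) 2) (hf : f ≠ 0)
    (h2 : ∀ p q r s, f p ≠ 0 → f q ≠ 0 → f r ≠ 0 → f s ≠ 0 → p ≠ q → p * q⁻¹ = r * s⁻¹ → p = r)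
    (hz : ∀ g : G, ∑ k ∈ S, a k * f (k⁻¹ * g) = 0) :
    (∑ g ∈ S, ‖a g‖ ^ 2) ^ 2 ≤ en S a := by
  classical
  set X := ∑ g ∈ S, ‖a g‖ ^ 2 with hX
  have hX0 : 0 ≤ X := Finset.sum_nonneg fun _ _ => sq_nonneg _
  have hen0 : 0 ≤ en S a := Finset.sum_nonneg fun _ _ => sq_nonneg _
  have hsum : HasSum (fun x => ‖f x‖ ^ 2) (‖f‖ ^ 2) := by
    have h := lp.hasSum_norm (p := 2) (by norm_num) f
    simpa only [ENNReal.toReal_ofNat, Real.rpow_two] using h
  have hX' : 0 < ‖f‖ ^ 2 := by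
    have := norm_pos_iff.2 hf
    positivity
  -- main claim for a finite set
  have key : ∀ F : Finset G, X ^ 2 * (∑ h ∈ F, ‖f h‖ ^ 2) ≤ en S a * ‖f‖ ^ 2 := by
    intro F
    set XF := ∑ h ∈ F, ‖f h‖ ^ 2 with hXF
    have hXF0 : 0 ≤ XF := Finset.sum_nonneg fun _ _ => sq_nonneg _
    set v : G → ℂ := fun y => ∑ h ∈ F, (starRingEnd ℂ) (f h) * f (y * h) with hv
    have hv1 : v 1 = (XF : ℂ) := by
      simp only [hv, hXF, Complex.ofReal_sum, one_mul]
      refine Finset.sum_congr rfl fun h _ => ?_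
      rw [mul_comm, Complex.mul_conj, Complex.normSq_eq_norm_sq]
    have hvz : ∀ g : G, ∑ k ∈ S, a k * v (k⁻¹ * g) = 0 := by
      intro g
      simp only [hv, Finset.mul_sum]
      rw [Finset.sum_comm]
      apply Finset.sum_eq_zero
      intro h _
      have := hz (g * h)
      calc ∑ k ∈ S, a k * ((starRingEnd ℂ) (f h) * f (k⁻¹ * g * h))
          = (starRingEnd ℂ) (f h) * ∑ k ∈ S, a k * f (k⁻¹ * (g * h)) := by
            rw [Finset.mul_sum]
            refine Finset.sum_congr rfl fun k _ => ?_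
            rw [mul_assoc k⁻¹ g h]
            ring
        _ = 0 := by rw [this, mul_zero]
    set P := S.offDiag with hP
    have hsplit : ∀ φ : G × G → ℂ, ∑ g ∈ S, ∑ k ∈ S, φ (g, k)
        = (∑ g ∈ S, φ (g, g)) + ∑ z ∈ P, φ z := by
      intro φ
      rw [← Finset.sum_product', ← Finset.diag_union_offDiag,
        Finset.sum_union (Finset.disjoint_diag_offDiag S), Finset.sum_diag]
    have e1 : (∑ g ∈ S, (starRingEnd ℂ) (a g) * a g * v (g⁻¹ * g))
        + ∑ z ∈ P, (starRingEnd ℂ) (a z.1) * a z.2 * v (z.2⁻¹ * z.1) = 0 := by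
      rw [← hsplit (fun z => (starRingEnd ℂ) (a z.1) * a z.2 * v (z.2⁻¹ * z.1))]
      apply Finset.sum_eq_zero
      intro g _
      calc ∑ k ∈ S, (starRingEnd ℂ) (a g) * a k * v (k⁻¹ * g)
          = (starRingEnd ℂ) (a g) * ∑ k ∈ S, a k * v (k⁻¹ * g) := by
            rw [Finset.mul_sum]
            exact Finset.sum_congr rfl fun k _ => by ring
        _ = 0 := by rw [hvz, mul_zero]
    have e2 : (∑ g ∈ S, (starRingEnd ℂ) (a g) * a g * v (g⁻¹ * g)) = ((X * XF : ℝ) : ℂ) := by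
      rw [Complex.ofReal_mul, hX, Complex.ofReal_sum, Finset.sum_mul]
      refine Finset.sum_congr rfl fun g _ => ?_
      rw [inv_mul_cancel, hv1, mul_comm ((starRingEnd ℂ) (a g)), Complex.mul_conj,
        Complex.normSq_eq_norm_sq]
    set Y := P.image (fun z : G × G => z.2⁻¹ * z.1) with hY
    have e3 : X * XF ≤ ∑ y ∈ Y, ‖∑ z ∈ P.filter (fun z => z.2⁻¹ * z.1 = y),
        (starRingEnd ℂ) (a z.1) * a z.2‖ * ‖v y‖ := by
      rw [e2] at e1
      have e4 : ((X * XF : ℝ) : ℂ) = - ∑ z ∈ P, (starRingEnd ℂ) (a z.1) * a z.2 * v (z.2⁻¹ * z.1) :=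
        eq_neg_of_add_eq_zero_left e1
      have e5 := congrArg norm e4
      rw [Complex.norm_real, norm_neg, Real.norm_of_nonneg (mul_nonneg hX0 hXF0)] at e5
      rw [e5, ← Finset.sum_fiberwise_of_maps_to (s := P) (t := Y)
        (g := fun z : G × G => z.2⁻¹ * z.1) (fun z hz => Finset.mem_image_of_mem _ hz)]
      refine (norm_sum_le _ _).trans (le_of_eq ?_)
      refine Finset.sum_congr rfl fun y _ => ?_
      rw [← norm_mul, Finset.sum_mul]
      congr 1
      refine Finset.sum_congr rfl fun z hz => ?_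
      rw [(Finset.mem_filter.1 hz).2]
    have e7 : ∑ y ∈ Y, ‖v y‖ ^ 2 ≤ ‖f‖ ^ 2 * XF := by
      have hY1 : ∀ y ∈ Y, y ≠ 1 := by
        intro y hy
        obtain ⟨z, hz1, rfl⟩ := Finset.mem_image.1 hy
        rw [hP, Finset.mem_offDiag] at hz1
        intro h
        rw [inv_mul_eq_one] at h
        exact hz1.2.2 h.symm
      have h3 : ∀ y ∈ Y, ‖v y‖ ^ 2 ≤ ∑ h ∈ F, ‖f h‖ ^ 2 * ‖f (y * h)‖ ^ 2 := by
        intro y hy
        by_cases hex : ∃ h ∈ F, f h ≠ 0 ∧ f (y * h) ≠ 0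
        · obtain ⟨h, hh, hfh, hfy⟩ := hex
          have h4 : v y = (starRingEnd ℂ) (f h) * f (y * h) := by
            simp only [hv]
            apply Finset.sum_eq_single_of_mem h hh
            intro h' _ hne
            by_contra hc
            have hc1 : f h' ≠ 0 := fun h0 => hc (by rw [h0]; simp)
            have hc2 : f (y * h') ≠ 0 := fun h0 => hc (by rw [h0]; simp)
            have h5 := h2 (y * h) h (y * h') h' hfy hfh hc2 hc1
              (fun h6 => hY1 y hy (by rw [mul_eq_right] at h6; exact h6)) (by simp)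
            exact hne (mul_left_cancel h5).symm
          rw [h4, norm_mul, RCLike.norm_conj, mul_pow]
          exact Finset.single_le_sum (f := fun h => ‖f h‖ ^ 2 * ‖f (y * h)‖ ^ 2)
            (fun _ _ => by positivity) hh
        · push Not at hex
          have h4 : v y = 0 := by
            simp only [hv]
            apply Finset.sum_eq_zero
            intro h hh
            by_cases h0 : f h = 0
            · rw [h0]; simp
            · rw [hex h hh h0, mul_zero]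
          rw [h4]
          simp only [norm_zero]
          have : 0 ≤ ∑ h ∈ F, ‖f h‖ ^ 2 * ‖f (y * h)‖ ^ 2 :=
            Finset.sum_nonneg fun _ _ => by positivity
          simpa using this
      refine (Finset.sum_le_sum h3).trans ?_
      rw [Finset.sum_comm, hXF, Finset.mul_sum]
      apply Finset.sum_le_sum
      intro h _
      rw [← Finset.mul_sum, mul_comm]
      apply mul_le_mul_of_nonneg_right _ (sq_nonneg _)
      have h5 : ∑ y ∈ Y, ‖f (y * h)‖ ^ 2 = ∑ y ∈ Y.image (fun y => y * h), ‖f y‖ ^ 2 :=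
        (Finset.sum_image (s := Y) (g := fun y => y * h) (f := fun y => ‖f y‖ ^ 2)
          (fun x _ y _ hxy => mul_right_cancel hxy)).symm
      rw [h5]
      exact sum_le_hasSum _ (fun _ _ => sq_nonneg _) hsum
    have e8 : (X * XF) ^ 2 ≤ en S a * (‖f‖ ^ 2 * XF) := by
      have h3 := pow_le_pow_left₀ (mul_nonneg hX0 hXF0) e3 2
      refine h3.trans ((Finset.sum_mul_sq_le_sq_mul_sq _ _ _).trans ?_)
      exact mul_le_mul_of_nonneg_left e7 hen0
    rcases eq_or_lt_of_le hXF0 with h0 | h0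
    · rw [← h0, mul_zero]
      exact mul_nonneg hen0 hX'.le
    · have : XF * (X ^ 2 * XF) ≤ XF * (en S a * ‖f‖ ^ 2) := by nlinarith
      exact le_of_mul_le_mul_left this h0
  -- limit
  have hlim := (hsum.mul_left (X ^ 2))
  have h3 : X ^ 2 * ‖f‖ ^ 2 ≤ en S a * ‖f‖ ^ 2 := by
    apply hasSum_le_of_sum_le hlim
    intro F
    rw [← Finset.mul_sum]
    exact key F
  exact le_of_mul_le_mul_right h3 hX'

end H61R3SD
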